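import Pool.Agent.W927.Code

set_option autoImplicit false

/-! # The free part of `2^{ℤ^d}` is Polish, with its action of `ℤ^d` -/

namespace Pool.Agent.N621.LC

open MeasureTheory Pool.Agent.W927 Topology Set

/-- A `Gδ` subset of a Polish space is Polish. -/
theorem polish_of_isGdelta {Y : Type} [TopologicalSpace Y] [PolishSpace Y] {G : Set Y}
    (hG : IsGδ G) : PolishSpace ↥G := by
  obtain ⟨U, hU, rfl⟩ := isGδ_iff_eq_iInter_nat.1 hG
  have : ∀ n, PolishSpace ↥(U n) := fun n => (hU n).polishSpace
  let φ : ↥(⋂ n, U n) → (∀ n, ↥(U n)) := fun y n => ⟨y.1, mem_iInter.1 y.2 n⟩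
  have hφc : Continuous φ := by
    refine continuous_pi fun n => ?_
    exact Continuous.subtype_mk continuous_subtype_val _
  have hφi : IsInducing φ := by
    refine IsInducing.of_comp hφc
      (g := fun p : (∀ n, ↥(U n)) => ((p 0 : ↥(U 0)) : Y)) ?_ ?_
    · exact continuous_subtype_val.comp (continuous_apply 0)
    · exact IsInducing.subtypeVal
  have hφinj : Function.Injective φ := by
    intro a b hab
    have := congrArg (fun p => ((p 0 : ↥(U 0)) : Y)) hab
    exact Subtype.ext this
  have hrange : range φ = ⋂ n, {p : (∀ n, ↥(U n)) | ((p n : ↥(U n)) : Y) = ((p 0 : ↥(U 0)) : Y)} := by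
    ext p
    constructor
    · rintro ⟨y, rfl⟩
      exact mem_iInter.2 fun n => rfl
    · intro hp
      rw [mem_iInter] at hp
      refine ⟨⟨(p 0 : ↥(U 0)), mem_iInter.2 fun n => ?_⟩, ?_⟩
      · have h2 : ((p n : ↥(U n)) : Y) = ((p 0 : ↥(U 0)) : Y) := hp n
        rw [← h2]
        exact (p n).2
      · funext n
        exact Subtype.ext (hp n).symm
  have hcl : IsClosed (range φ) := by
    rw [hrange]
    refine isClosed_iInter fun n => ?_
    exact isClosed_eq (continuous_subtype_val.comp (continuous_apply n))
      (continuous_subtype_val.comp (continuous_apply 0))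
  exact (IsClosedEmbedding.mk ⟨hφi, hφinj⟩ hcl).polishSpace

section
variable {d : ℕ}

theorem continuous_shift {A : Type} [TopologicalSpace A] (g : Fin d → ℤ) :
    Continuous (shift g : Conf d A → Conf d A) :=
  continuous_pi fun h => continuous_apply (h + g)

theorem isGdelta_free : IsGδ {x : Conf d Bool | ∀ g : Fin d → ℤ, g ≠ 0 → shift g x ≠ x} := by
  have : {x : Conf d Bool | ∀ g : Fin d → ℤ, g ≠ 0 → shift g x ≠ x} =
      ⋂ g : Fin d → ℤ, {x : Conf d Bool | g ≠ 0 → shift g x ≠ x} := by
    ext x; simp
  rw [this]
  refine IsGδ.iInter fun g => ?_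
  by_cases hg : g = 0
  · have : {x : Conf d Bool | g ≠ 0 → shift g x ≠ x} = univ := by
      ext x; simp [hg]
    rw [this]
    exact IsGδ.univ
  · have : {x : Conf d Bool | g ≠ 0 → shift g x ≠ x} = {x | shift g x = x}ᶜ := by
      ext x; simp [hg]
    rw [this]
    exact (isClosed_eq (continuous_shift g) continuous_id).isOpen_compl.isGδ

theorem polish_conf (d : ℕ) : PolishSpace (Conf d Bool) := by
  have h1 : PolishSpace Bool := ⟨⟩
  have h2 : TopologicalSpace.IsCompletelyMetrizableSpace (Conf d Bool) := inferInstance
  exact ⟨⟩

instance polish_free : PolishSpace (FreePart d) :=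
  have := polish_conf d
  polish_of_isGdelta isGdelta_free

theorem shift_zero {A : Type} (x : Conf d A) : shift 0 x = x := by
  funext h; simp [shift]

theorem shift_add {A : Type} (g h : Fin d → ℤ) (x : Conf d A) :
    shift (g + h) x = shift g (shift h x) := by
  funext k; simp [shift, add_assoc]

/-- the action on the free part -/
def act (g : Fin d → ℤ) (x : FreePart d) : FreePart d :=
  ⟨shift g x.1, fun h hh e => x.2 h hh (by
    have h1 : shift (-g) (shift h (shift g x.1)) = shift (-g) (shift g x.1) := by rw [e]
    rw [← shift_add, ← shift_add, ← shift_add, neg_add_cancel, shift_zero,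
      show -g + h + g = h by abel] at h1
    exact h1)⟩

theorem act_val (g : Fin d → ℤ) (x : FreePart d) : (act g x).1 = shift g x.1 := rfl

theorem act_zero (x : FreePart d) : act 0 x = x := Subtype.ext (shift_zero _)

theorem act_add (g h : Fin d → ℤ) (x : FreePart d) : act (g + h) x = act g (act h x) :=
  Subtype.ext (shift_add _ _ _)

theorem act_free (g : Fin d → ℤ) (x : FreePart d) (h : act g x = x) : g = 0 := by
  by_contra hg
  exact x.2 g hg (congrArg Subtype.val h)

theorem continuous_act (g : Fin d → ℤ) : Continuous (act g : FreePart d → FreePart d) :=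
  Continuous.subtype_mk ((continuous_shift g).comp continuous_subtype_val) _

theorem measurable_act (g : Fin d → ℤ) : Measurable (act g : FreePart d → FreePart d) :=
  (continuous_act g).measurable

/-- the action as a homeomorphism -/
def actH (g : Fin d → ℤ) : FreePart d ≃ₜ FreePart d where
  toFun := act g
  invFun := act (-g)
  left_inv x := by rw [← act_add, neg_add_cancel, act_zero]
  right_inv x := by rw [← act_add, add_neg_cancel, act_zero]
  continuous_toFun := continuous_act g
  continuous_invFun := continuous_act (-g)

theorem preimage_act_residual {G : Set (FreePart d)} (hG : G ∈ residual (FreePart d))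
    (g : Fin d → ℤ) : act g ⁻¹' G ∈ residual (FreePart d) :=
  tendsto_residual_of_isOpenMap (actH g).continuous (actH g).isOpenMap hG

/-- equivariant map defined by a labelling -/
def mk {k : ℕ} (f : FreePart d → Fin k) (x : FreePart d) : Conf d (Fin k) := fun h => f (act h x)

theorem mk_equiv {k : ℕ} (f : FreePart d → Fin k) (g : Fin d → ℤ) (x y : FreePart d)
    (h : y.1 = shift g x.1) : mk f y = shift g (mk f x) := by
  have : y = act g x := Subtype.ext h
  subst this
  funext k
  simp only [mk, shift, act_add]

theorem eq_mk {k : ℕ} {S : Set (Conf d (Fin k))} {T : FreePart d → Conf d (Fin k)}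
    (hT : IsEquivMap S T) : T = mk (fun x => T x 0) := by
  funext x h
  have := hT.equivariant h x (act h x) rfl
  simp only [mk, this, shift, zero_add]

theorem measurable_mk {k : ℕ} {f : FreePart d → Fin k} (hf : Measurable f) :
    Measurable (mk f) := measurable_pi_iff.2 fun h => hf.comp (measurable_act h)

/-- the largest invariant subset -/
def core (G : Set (FreePart d)) : Set (FreePart d) := {x | ∀ g, act g x ∈ G}

theorem core_sub (G : Set (FreePart d)) : core G ⊆ G := fun x hx => by
  have := hx 0
  rwa [act_zero] at this

theorem core_inv {G : Set (FreePart d)} {x : FreePart d} (g : Fin d → ℤ) :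
    act g x ∈ core G ↔ x ∈ core G := by
  constructor
  · intro h k
    have := h (k - g)
    rwa [← act_add, sub_add_cancel] at this
  · intro h k
    rw [← act_add]
    exact h _

theorem core_measurable {G : Set (FreePart d)} (hG : MeasurableSet G) : MeasurableSet (core G) := by
  have : core G = ⋂ g, act g ⁻¹' G := by ext x; simp [core]
  rw [this]
  exact MeasurableSet.iInter fun g => measurable_act g hG

theorem core_residual {G : Set (FreePart d)} (hG : G ∈ residual (FreePart d)) :
    core G ∈ residual (FreePart d) := by
  have : core G = ⋂ g, act g ⁻¹' G := by ext x; simp [core]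
  rw [this]
  exact countable_iInter_mem.2 fun g => preimage_act_residual hG g

end

end Pool.Agent.N621.LC
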