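import Pool.Agent.W928.BM.CAT

set_option autoImplicit false

/-! # Markers for free Borel actions of `ℤ²`: countable colourings and maximal separated sets -/

noncomputable section

namespace Pool.Agent.N621.LC

open TopologicalSpace Set MeasureTheory

/-- `T` is a free Borel action of `ℤ²`. -/
structure FAct {X : Type} [MeasurableSpace X] (T : ℤ → ℤ → X → X) : Prop where
  zero : ∀ y, T 0 0 y = y
  add : ∀ s t x z y, T (s + t) (x + z) y = T s x (T t z y)
  meas : ∀ t x, Measurable (T t x)
  free : ∀ t x y, T t x y = y → t = 0 ∧ x = 0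

section
variable {X : Type} [MeasurableSpace X] {T : ℤ → ℤ → X → X}

theorem FAct.neg (h : FAct T) (t x : ℤ) (y : X) : T t x (T (-t) (-x) y) = y := by
  rw [← h.add, add_neg_cancel, add_neg_cancel, h.zero]

theorem FAct.neg' (h : FAct T) (t x : ℤ) (y : X) : T (-t) (-x) (T t x y) = y := by
  rw [← h.add, neg_add_cancel, neg_add_cancel, h.zero]

theorem FAct.inj (h : FAct T) {t x s z : ℤ} {y : X} (e : T t x y = T s z y) : t = s ∧ x = z := by
  have h1 : T (-s + t) (-z + x) y = y := by rw [h.add, e, h.neg']
  have := h.free _ _ _ h1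
  omega

/-- rewriting a composition -/
theorem FAct.comp (h : FAct T) {s x t z u v : ℤ} {y : X} (h1 : s + t = u) (h2 : x + z = v) :
    T s x (T t z y) = T u v y := by rw [← h.add, h1, h2]

end

/-- countable Borel colouring with distinct colours at distance at most `K` -/
theorem exists_col {X : Type} [TopologicalSpace X] [PolishSpace X] [MeasurableSpace X]
    [BorelSpace X] {T : ℤ → ℤ → X → X} (hT : FAct T) (K : ℤ) :
    ∃ n : X → ℕ, Measurable n ∧
      ∀ y t x, |t| ≤ K → |x| ≤ K → n (T t x y) = n y → t = 0 ∧ x = 0 := by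
  classical
  rcases isEmpty_or_nonempty X with hX | hX
  · exact ⟨fun _ => 0, measurable_const, fun y => (hX.false y).elim⟩
  have hcount : Countable (countableBasis X) := (countable_countableBasis X).to_subtype
  have hne : Nonempty (countableBasis X) := by
    obtain ⟨y⟩ := hX
    obtain ⟨V, hV, -⟩ := (isBasis_countableBasis X).exists_subset_of_mem_open (mem_univ y) isOpen_univ
    exact ⟨⟨V, hV⟩⟩
  obtain ⟨φ, hφ⟩ := exists_surjective_nat (countableBasis X)
  have hex : ∀ y : X, ∃ i, y ∈ Pool.Agent.W928.BM.CAT.AA T K (φ i).1 := by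
    intro y
    obtain ⟨V, hV, hy⟩ := Pool.Agent.W928.BM.CAT.cover hT.free K y
    obtain ⟨i, hi⟩ := hφ ⟨V, hV⟩
    exact ⟨i, by rw [hi]; exact hy⟩
  refine ⟨fun y => Nat.find (hex y), measurable_find hex fun k => ?_, ?_⟩
  · exact Pool.Agent.W928.BM.CAT.AA_meas hT.meas K
      ((isBasis_countableBasis X).isOpen (φ k).2)
  · intro y t x ht hx h
    have h1 := Nat.find_spec (hex y)
    have h2 := Nat.find_spec (hex (T t x y))
    simp only at h
    rw [h] at h2
    exact Pool.Agent.W928.BM.CAT.AA_sep h1 ht hx h2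

section Greedy
variable {X : Type} [MeasurableSpace X] {T : ℤ → ℤ → X → X} (n : X → ℕ) (T' : ℤ → ℤ → X → X) (K : ℤ)

/-- greedy construction -/
def greedy : ℕ → Set X
  | 0 => {y | n y = 0}
  | i + 1 => greedy i ∪ {y | n y = i + 1 ∧ ∀ t x : ℤ, |t| ≤ K → |x| ≤ K → T' t x y ∉ greedy i}

variable {n T' K}

theorem greedy_mono {i j : ℕ} (h : i ≤ j) : greedy n T' K i ⊆ greedy n T' K j := by
  induction h with
  | refl => exact subset_rfl
  | step _ ih => exact ih.trans subset_union_left

theorem greedy_le {i : ℕ} {y : X} (h : y ∈ greedy n T' K i) : n y ≤ i := by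
  induction i with
  | zero => exact le_of_eq h
  | succ i ih =>
    rcases h with h | h
    · exact (ih h).trans (Nat.le_succ _)
    · exact h.1.le

theorem greedy_self {i : ℕ} {y : X} (h : y ∈ greedy n T' K i) : y ∈ greedy n T' K (n y) := by
  induction i with
  | zero =>
    have : n y = 0 := h
    rw [this]; exact h
  | succ i ih =>
    rcases h with h | h
    · exact ih h
    · rw [h.1]; exact Or.inr h

theorem greedy_meas (hn : Measurable n) (hT : ∀ t x, Measurable (T' t x)) (i : ℕ) :
    Measurable fun y => y ∈ greedy n T' K i := by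
  induction i with
  | zero =>
    exact measurableSet_setOfPred.1 (hn (measurableSet_singleton 0))
  | succ i ih =>
    refine Measurable.or ih (Measurable.and ?_ ?_)
    · exact measurableSet_setOfPred.1 (hn (measurableSet_singleton (i + 1)))
    · exact Measurable.forall fun t => Measurable.forall fun x =>
        measurable_const.imp (measurable_const.imp (ih.comp (hT t x)).not)

end Greedy

/-- a Borel maximal separated set -/
theorem exists_max {X : Type} [TopologicalSpace X] [PolishSpace X] [MeasurableSpace X]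
    [BorelSpace X] {T : ℤ → ℤ → X → X} (hT : FAct T) (K : ℤ) (hK : 0 ≤ K) :
    ∃ S : Set X, (Measurable fun y => y ∈ S) ∧
      (∀ y t x, |t| ≤ K → |x| ≤ K → y ∈ S → T t x y ∈ S → t = 0 ∧ x = 0) ∧
      ∀ y, ∃ t x, |t| ≤ K ∧ |x| ≤ K ∧ T t x y ∈ S := by
  obtain ⟨n, hn, hsep⟩ := exists_col hT K
  refine ⟨{y | ∃ i, y ∈ greedy n T K i}, Measurable.exists fun i => greedy_meas hn hT.meas i, ?_, ?_⟩
  · -- separation
    have key : ∀ y t x, |t| ≤ K → |x| ≤ K → y ∈ greedy n T K (n y) →
        T t x y ∈ greedy n T K (n (T t x y)) → n (T t x y) < n y → False := by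
      intro y t x ht hx h1 h2 hlt
      obtain ⟨i, hi⟩ : ∃ i, n y = i + 1 := ⟨n y - 1, by omega⟩
      rw [hi] at h1
      rcases h1 with h1 | h1
      · have := greedy_le h1
        omega
      · exact h1.2 t x ht hx (greedy_mono (by omega) h2)
    rintro y t x ht hx ⟨i, hi⟩ ⟨j, hj⟩
    have h1 := greedy_self hi
    have h2 := greedy_self hj
    by_contra hcon
    rcases lt_trichotomy (n (T t x y)) (n y) with h | h | h
    · exact key y t x ht hx h1 h2 h
    · exact hcon (hsep y t x ht hx h)
    · refine key (T t x y) (-t) (-x) (by rwa [abs_neg]) (by rwa [abs_neg]) h2 ?_ ?_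
      · rw [hT.neg']; exact h1
      · rw [hT.neg']; exact h
  · intro y
    by_cases hy : y ∈ greedy n T K (n y)
    · exact ⟨0, 0, by simpa using hK, by simpa using hK, by rw [hT.zero]; exact ⟨_, hy⟩⟩
    · obtain ⟨i, hi⟩ : ∃ i, n y = i + 1 := by
        rcases Nat.eq_zero_or_pos (n y) with h | h
        · exact absurd (by rw [h]; exact h) hy
        · exact ⟨n y - 1, by omega⟩
      rw [hi] at hy
      by_contra hcon
      push Not at hcon
      exact hy (Or.inr ⟨hi, fun t x ht hx h => hcon t x ht hx ⟨i, h⟩⟩)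

end Pool.Agent.N621.LC

end
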