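import Mathlib

set_option autoImplicit false

/-! # Heights of configurations of the block rule -/

namespace Pool.Agent.N621.LC

/-- The rule for the block with lower left corner `(t, x)`: after subtracting the sum of the
coordinates the values are `m` or `m + 1`, and at most two of them are `m + 1`. -/
def Blk (σ : ℤ → ℤ → ZMod 3) (t x : ℤ) : Prop :=
  ∃ (m : ZMod 3) (a b c d : ℕ), a ≤ 1 ∧ b ≤ 1 ∧ c ≤ 1 ∧ d ≤ 1 ∧ a + b + c + d ≤ 2 ∧
    σ t x = m + a ∧ σ (t + 1) x = m + 1 + b ∧ σ t (x + 1) = m + 1 + c ∧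
      σ (t + 1) (x + 1) = m + 2 + d

/-! ## potentials on `ℤ²` -/

theorem pot1 (f : ℤ → ℤ) : ∃ F : ℤ → ℤ, F 0 = 0 ∧ ∀ t, F (t + 1) = F t + f t := by
  refine ⟨fun t => ∑ i ∈ Finset.Ico 0 t, f i - ∑ i ∈ Finset.Ico t 0, f i, by simp, fun t => ?_⟩
  rcases lt_or_ge t 0 with h | h
  · have e1 : Finset.Ico 0 (t + 1) = ∅ := Finset.Ico_eq_empty (by omega)
    have e2 : Finset.Ico 0 t = ∅ := Finset.Ico_eq_empty (by omega)
    have e3 : Finset.Ico t 0 = insert t (Finset.Ico (t + 1) 0) := by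
      ext i; simp only [Finset.mem_Ico, Finset.mem_insert]; omega
    simp only [e1, e2, e3]
    rw [Finset.sum_insert (by simp)]
    ring
  · have e1 : Finset.Ico (t + 1) 0 = ∅ := Finset.Ico_eq_empty (by omega)
    have e2 : Finset.Ico t 0 = ∅ := Finset.Ico_eq_empty (by omega)
    have e3 : Finset.Ico 0 (t + 1) = insert t (Finset.Ico 0 t) := by
      ext i; simp only [Finset.mem_Ico, Finset.mem_insert]; omega
    simp only [e1, e2, e3]
    rw [Finset.sum_insert (by simp)]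
    ring

theorem int_ind {p : ℤ → Prop} (h0 : p 0) (hs : ∀ t, p t ↔ p (t + 1)) (t : ℤ) : p t := by
  induction t using Int.induction_on with
  | zero => exact h0
  | succ n ih => exact (hs _).1 ih
  | pred n ih => exact (hs _).2 (by rwa [sub_add_cancel])

theorem pot2 (h w : ℤ → ℤ → ℤ) (hc : ∀ t x, h t x + w (t + 1) x = w t x + h t (x + 1)) :
    ∃ D : ℤ → ℤ → ℤ, D 0 0 = 0 ∧ (∀ t x, D (t + 1) x = D t x + h t x) ∧
      ∀ t x, D t (x + 1) = D t x + w t x := by
  obtain ⟨F, F0, hF⟩ := pot1 fun t => h t 0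
  choose G G0 hG using fun t => pot1 fun x => w t x
  refine ⟨fun t x => F t + G t x, by simp [F0, G0], fun t => ?_, fun t x => by simp only [hG]; ring⟩
  refine int_ind (by simp only [hF, G0]; ring) fun x => ?_
  have h1 := hG (t + 1) x
  have h2 := hG t x
  have h3 := hc t x
  constructor
  · intro h
    simp only at h ⊢
    omega
  · intro h
    simp only at h ⊢
    omega

/-- representative in `{-1, 0, 1}` -/
def rho (z : ZMod 3) : ℤ := if z = 0 then 0 else if z = 1 then 1 else -1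

theorem rho_cast : ∀ z : ZMod 3, ((rho z : ℤ) : ZMod 3) = z := by decide

theorem rho_sub (a b : ℕ) (ha : a ≤ 1) (hb : b ≤ 1) :
    rho ((b : ZMod 3) - (a : ZMod 3)) = (b : ℤ) - a := by
  interval_cases a <;> interval_cases b <;> decide

/-- properties of a height function -/
structure Hgt (D : ℤ → ℤ → ℤ) : Prop where
  blk : ∀ t x, ∃ (m : ℤ) (a b c d : ℕ), a ≤ 1 ∧ b ≤ 1 ∧ c ≤ 1 ∧ d ≤ 1 ∧ a + b + c + d ≤ 2 ∧
    D t x = m + a ∧ D (t + 1) x = m + b ∧ D t (x + 1) = m + c ∧ D (t + 1) (x + 1) = m + d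

theorem exists_hgt {σ : ℤ → ℤ → ZMod 3} (hσ : ∀ t x, Blk σ t x) :
    ∃ D : ℤ → ℤ → ℤ, Hgt D ∧ (∀ t x, D (t + 1) x = D t x + rho (σ (t + 1) x - σ t x - 1)) ∧
      (∀ t x, D t (x + 1) = D t x + rho (σ t (x + 1) - σ t x - 1)) ∧
      ∀ t x, σ t x = σ 0 0 + t + x + D t x := by
  set h : ℤ → ℤ → ℤ := fun t x => rho (σ (t + 1) x - σ t x - 1) with hh
  set w : ℤ → ℤ → ℤ := fun t x => rho (σ t (x + 1) - σ t x - 1) with hw
  have key : ∀ t x, ∃ (m : ZMod 3) (a b c d : ℕ), a ≤ 1 ∧ b ≤ 1 ∧ c ≤ 1 ∧ d ≤ 1 ∧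
      a + b + c + d ≤ 2 ∧ h t x = (b : ℤ) - a ∧ w t x = (c : ℤ) - a ∧ w (t + 1) x = (d : ℤ) - b ∧
      h t (x + 1) = (d : ℤ) - c := by
    intro t x
    obtain ⟨m, a, b, c, d, ha, hb, hc, hd, hs, e1, e2, e3, e4⟩ := hσ t x
    refine ⟨m, a, b, c, d, ha, hb, hc, hd, hs, ?_, ?_, ?_, ?_⟩
    · rw [← rho_sub a b ha hb]
      simp only [hh, e1, e2]
      congr 1; ring
    · rw [← rho_sub a c ha hc]
      simp only [hw, e1, e3]
      congr 1; ring
    · rw [← rho_sub b d hb hd]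
      simp only [hw, e2, e4]
      congr 1; ring
    · rw [← rho_sub c d hc hd]
      simp only [hh, e3, e4]
      congr 1; ring
  obtain ⟨D, D0, Dh, Dw⟩ := pot2 h w (by
    intro t x
    obtain ⟨m, a, b, c, d, -, -, -, -, -, e1, e2, e3, e4⟩ := key t x
    rw [e1, e2, e3, e4]; ring)
  refine ⟨D, ⟨fun t x => ?_⟩, Dh, Dw, ?_⟩
  · obtain ⟨m, a, b, c, d, ha, hb, hc, hd, hs, e1, e2, e3, e4⟩ := key t x
    refine ⟨D t x - a, a, b, c, d, ha, hb, hc, hd, hs, by ring, ?_, ?_, ?_⟩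
    · rw [Dh, e1]; ring
    · rw [Dw, e2]; ring
    · rw [Dw, Dh, e1, e3]; ring
  · have row : ∀ t, σ t 0 = σ 0 0 + t + D t 0 := by
      refine int_ind (by simp [D0]) fun t => ?_
      have h1 : σ (t + 1) 0 = σ t 0 + 1 + ((h t 0 : ℤ) : ZMod 3) := by
        simp only [hh, rho_cast]; ring
      rw [h1, Dh]
      push_cast
      constructor
      · intro e; rw [e]; ring
      · intro e
        linear_combination e
    intro t
    refine int_ind (by simpa using row t) fun x => ?_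
    have h1 : σ t (x + 1) = σ t x + 1 + ((w t x : ℤ) : ZMod 3) := by
      simp only [hw, rho_cast]; ring
    rw [h1, Dw]
    push_cast
    constructor
    · intro e; rw [e]; ring
    · intro e
      linear_combination e

/-! ## heights are bounded if no row and no column is flat for a long time -/

/-- propagation from a line `u` to an adjacent line `v` -/
theorem propagate {u v : ℤ → ℤ} {k a b : ℤ} (h1 : ∀ i, u i ≤ v i + 1)
    (h2 : ∀ i, k ≤ u i → k ≤ u (i + 1) → (k ≤ v i ↔ k ≤ v (i + 1)))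
    (h3 : ∀ i, a ≤ i → i ≤ b → k ≤ u i) (h4 : ∃ i, a ≤ i ∧ i < b ∧ u (i + 1) ≠ u i) :
    ∀ i, a ≤ i → i ≤ b → k ≤ v i := by
  intro i hai hib
  by_contra hcon
  push Not at hcon
  have up : ∀ n : ℕ, i + n ≤ b → v (i + n) < k := by
    intro n
    induction n with
    | zero => intro _; simpa using hcon
    | succ n ih =>
      intro h
      push_cast at h ⊢
      have e1 := ih (by omega)
      by_contra h5
      push Not at h5
      have := (h2 (i + n) (h3 _ (by omega) (by omega)) (h3 _ (by omega) (by omega))).2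
        (by rw [add_assoc]; exact h5)
      omega
  have dn : ∀ n : ℕ, a ≤ i - n → v (i - n) < k := by
    intro n
    induction n with
    | zero => intro _; simpa using hcon
    | succ n ih =>
      intro h
      push_cast at h ⊢
      have e1 := ih (by omega)
      by_contra h5
      push Not at h5
      have := (h2 (i - (n + 1)) (h3 _ (by omega) (by omega)) (h3 _ (by omega) (by omega))).1 h5
      rw [show i - ((n : ℤ) + 1) + 1 = i - n by ring] at this
      omega
  have all : ∀ j, a ≤ j → j ≤ b → v j < k := by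
    intro j haj hjb
    rcases le_total i j with h | h
    · have := up (j - i).toNat (by omega)
      rwa [show i + ((j - i).toNat : ℤ) = j by omega] at this
    · have := dn (i - j).toNat (by omega)
      rwa [show i - ((i - j).toNat : ℤ) = j by omega] at this
  have cst : ∀ j, a ≤ j → j ≤ b → u j = k := by
    intro j haj hjb
    have e1 := all j haj hjb
    have e2 := h3 j haj hjb
    have e3 := h1 j
    omega
  obtain ⟨j, e1, e2, e3⟩ := h4
  exact e3 (by rw [cst j e1 e2.le, cst (j + 1) (by omega) (by omega)])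

theorem Hgt.swap {D : ℤ → ℤ → ℤ} (hD : Hgt D) : Hgt (fun t x => D x t) := by
  refine ⟨fun t x => ?_⟩
  obtain ⟨m, a, b, c, d, ha, hb, hc, hd, hs, e1, e2, e3, e4⟩ := hD.blk x t
  exact ⟨m, a, c, b, d, ha, hc, hb, hd, by omega, e1, e3, e2, e4⟩

theorem Hgt.up {D : ℤ → ℤ → ℤ} (hD : Hgt D) (t x : ℤ) :
    D t x ≤ D t (x + 1) + 1 ∧ D t (x + 1) ≤ D t x + 1 := by
  obtain ⟨m, a, b, c, d, ha, hb, hc, hd, hs, e1, e2, e3, e4⟩ := hD.blk t x
  omega

theorem Hgt.tri {D : ℤ → ℤ → ℤ} (hD : Hgt D) (k t x : ℤ) :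
    (k ≤ D t x → k ≤ D (t + 1) x → (k ≤ D t (x + 1) ↔ k ≤ D (t + 1) (x + 1))) ∧
    (k ≤ D t (x + 1) → k ≤ D (t + 1) (x + 1) → (k ≤ D t x ↔ k ≤ D (t + 1) x)) := by
  obtain ⟨m, a, b, c, d, ha, hb, hc, hd, hs, e1, e2, e3, e4⟩ := hD.blk t x
  rw [e1, e2, e3, e4]
  constructor <;> intro h1 h2 <;> constructor <;> intro h3 <;> omega

/-- if a row segment of a height function which is not flat is `≥ k` then so are its translates -/
theorem Hgt.strip {D : ℤ → ℤ → ℤ} (hD : Hgt D) {k a b : ℤ}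
    (hn : ∀ x, ∃ i, a ≤ i ∧ i < b ∧ D (i + 1) x ≠ D i x) {x0 : ℤ}
    (h0 : ∀ i, a ≤ i → i ≤ b → k ≤ D i x0) (x : ℤ) : ∀ i, a ≤ i → i ≤ b → k ≤ D i x := by
  have up : ∀ x, (∀ i, a ≤ i → i ≤ b → k ≤ D i x) → ∀ i, a ≤ i → i ≤ b → k ≤ D i (x + 1) := by
    intro x hx
    exact propagate (u := fun i => D i x) (v := fun i => D i (x + 1)) (fun i => (hD.up i x).1)
      (fun i => (hD.tri k i x).1) hx (hn x)
  have dn : ∀ x, (∀ i, a ≤ i → i ≤ b → k ≤ D i (x + 1)) → ∀ i, a ≤ i → i ≤ b → k ≤ D i x := by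
    intro x hx
    exact propagate (u := fun i => D i (x + 1)) (v := fun i => D i x) (fun i => (hD.up i x).2)
      (fun i => (hD.tri k i x).2) hx (hn _)
  have := int_ind (p := fun y => ∀ i, a ≤ i → i ≤ b → k ≤ D i (x0 + y)) (by simpa using h0)
    (fun y => ⟨fun h => by rw [← add_assoc]; exact up _ h,
      fun h => dn _ (by rw [add_assoc]; exact h)⟩) (x - x0)
  rwa [add_sub_cancel] at this

theorem Hgt.bdd {D : ℤ → ℤ → ℤ} (hD : Hgt D) {L : ℕ}
    (h1 : ∀ t x : ℤ, ∃ i : ℤ, t ≤ i ∧ i < t + L ∧ D (i + 1) x ≠ D i x)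
    (h2 : ∀ t x : ℤ, ∃ i : ℤ, x ≤ i ∧ i < x + L ∧ D t (i + 1) ≠ D t i) (s y t x : ℤ) :
    D s y - L ≤ D t x := by
  have st : ∀ n : ℕ, D s y - n ≤ D (s + n) y := by
    intro n
    induction n with
    | zero => simp
    | succ n ih =>
      have := (hD.swap.up y (s + n)).1
      push_cast
      rw [← add_assoc]
      linarith
  have A : ∀ i, s ≤ i → i ≤ s + L → D s y - L ≤ D i y := by
    intro i h3 h4
    have := st (i - s).toNat
    rw [show s + ((i - s).toNat : ℤ) = i by omega] at this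
    omega
  have B : ∀ x, D s y - L ≤ D s x := fun x =>
    hD.strip (fun x => h1 s x) A x s le_rfl (by omega)
  have C := hD.swap.strip (k := D s y - L) (a := x) (b := x + L) (x0 := s) (fun t => h2 t x)
    (fun i _ _ => B i) t x le_rfl (by omega)
  exact C

end Pool.Agent.N621.LC
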