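import Pool.Agent.W927.Code
import Pool.Agent.N621.LC.Rect

set_option autoImplicit false

/-! # Rotations of the circle have no Borel solution of the block rule -/

namespace Pool.Agent.N621.LC

open Pool.Agent.W927 Filter Topology

theorem addOrderOf_three {β : TT} (hβ : addOrderOf β = 0) : addOrderOf (3 • β) = 0 := by
  rw [addOrderOf_eq_zero_iff'] at hβ ⊢
  intro n hn h
  apply hβ (n * 3) (by omega)
  rw [mul_smul]; exact h

theorem return3 {O : Set TT} (hO : IsOpen O) (hne : O.Nonempty) {β : TT}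
    (hβ : addOrderOf β = 0) (x : TT) : ∃ k : ℕ, x + (3 * k + 1) • β ∈ O := by
  obtain ⟨K, hK⟩ := syndetic hO hne (addOrderOf_three hβ)
  obtain ⟨k, -, hk⟩ := hK (x + β)
  refine ⟨k, ?_⟩
  rw [add_smul, one_smul, mul_comm, mul_smul, ← add_assoc, add_right_comm]
  exact hk

theorem synd3 {O : Set TT} (hO : IsOpen O) (hne : O.Nonempty) {β : TT}
    (hβ : addOrderOf β = 0) : ∃ L : ℕ, ∀ z : TT, ∃ i k : ℕ, i + (3 * k + 1) ≤ L ∧
      z + i • β ∈ O ∧ z + (i + (3 * k + 1)) • β ∈ O := by
  obtain ⟨x, hx⟩ := hne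
  obtain ⟨k, hk⟩ := return3 hO ⟨x, hx⟩ hβ x
  have hO' : IsOpen (O ∩ (fun z : TT => z + (3 * k + 1) • β) ⁻¹' O) :=
    hO.inter (hO.preimage (continuous_id.add continuous_const))
  obtain ⟨K, hK⟩ := syndetic hO' ⟨x, hx, hk⟩ hβ
  refine ⟨K + (3 * k + 1), fun z => ?_⟩
  obtain ⟨i, hi, h1, h2⟩ := hK z
  refine ⟨i, k, by omega, h1, ?_⟩
  rw [add_smul i, ← add_assoc]
  exact h2

theorem line_const {R : ℤ} {g : ℤ → ℤ} (h : ∀ i, -R ≤ i → i + 1 ≤ R → g (i + 1) = g i) (i : ℤ)
    (h1 : -R ≤ i) (h2 : i ≤ R) : g i = g 0 := by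
  have up : ∀ n : ℕ, (n : ℤ) ≤ R → g n = g 0 := by
    intro n
    induction n with
    | zero => intro _; rfl
    | succ n ih =>
      intro hn
      push_cast at hn ⊢
      rw [h n (by omega) hn, ih (by omega)]
  have dn : ∀ n : ℕ, -R ≤ -(n : ℤ) → g (-n) = g 0 := by
    intro n
    induction n with
    | zero => intro _; simp
    | succ n ih =>
      intro hn
      push_cast at hn ⊢
      rw [← ih (by omega), ← h (-(n + 1)) (by omega) (by omega)]
      congr 1; ring
  rcases le_total 0 i with h3 | h3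
  · have := up i.toNat (by omega)
    rwa [show ((i.toNat : ℕ) : ℤ) = i by omega] at this
  · have := dn (-i).toNat (by omega)
    rwa [show -(((-i).toNat : ℕ) : ℤ) = i by omega] at this

theorem exists_argmin (g : ℤ × ℤ → ℕ) : ∃ p, ∀ q, g p ≤ g q := by
  obtain ⟨p, -, hp⟩ := (measure g).wf.has_min Set.univ ⟨(0, 0), trivial⟩
  exact ⟨p, fun q => not_lt.1 (hp q trivial)⟩

theorem cast31 (k : ℕ) : ((3 * k + 1 : ℕ) : ZMod 3) = 1 := by
  push_cast
  have : (3 : ZMod 3) = 0 := by decide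
  rw [this]; ring

theorem no_borel_blk {u v : TT} (hu : addOrderOf u = 0) (hv : addOrderOf v = 0) {f : TT → ZMod 3}
    (hf : ∀ c, MeasurableSet {x | f x = c}) (hB : ∀ y t x, Blk (cfg f u v y) t x) : False := by
  choose U hUo hU using fun c => (hf c).residualEq_isOpen
  have g1 : Gen fun x => ∀ c, (f x = c ↔ x ∈ U c) := by
    simp only [Gen, eventually_countable_forall]
    intro c
    exact (hU c).mem_iff
  obtain ⟨y, -, hy⟩ := gen_exists isOpen_univ Set.univ_nonempty (gen_orbit g1 u v)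
  -- orbit of `y`
  have hy0 : y ∈ U (f y) := by
    have := hy 0 0 (f y)
    simp only [zero_smul, add_zero] at this
    exact this.1 trivial
  obtain ⟨L1, hL1⟩ := synd3 (hUo (f y)) ⟨y, hy0⟩ hu
  obtain ⟨L2, hL2⟩ := synd3 (hUo (f y)) ⟨y, hy0⟩ hv
  set σ := cfg f u v y with hσ
  obtain ⟨D, hD, Dh, Dw, hDσ⟩ := exists_hgt (σ := σ) (fun t x => hB y t x)
  have c1 : ∀ t x : ℤ, ∃ i : ℤ, t ≤ i ∧ i < t + (max L1 L2 : ℕ) ∧ D (i + 1) x ≠ D i x := by
    intro t x
    by_contra hcon
    push Not at hcon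
    obtain ⟨i, k, hik, h1, h2⟩ := hL1 (y + t • u + x • v)
    have e1 : σ (t + i) x = f y := by
      refine (hy _ _ _).2 ?_
      rw [add_smul t, natCast_zsmul]
      convert h1 using 1
      abel
    have e2 : σ (t + (i + (3 * k + 1) : ℕ)) x = f y := by
      refine (hy _ _ _).2 ?_
      rw [add_smul t, natCast_zsmul]
      convert h2 using 1
      abel
    have e3 : ∀ n : ℕ, n ≤ L1 → D (t + n) x = D t x := by
      intro n
      induction n with
      | zero => intro _; simp
      | succ n ih =>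
        intro hn
        rw [← ih (by omega)]
        push_cast
        rw [← add_assoc]
        exact hcon _ (by omega) (by omega)
    rw [hDσ, e3 _ (by omega)] at e1
    rw [hDσ, e3 _ (by omega)] at e2
    rw [← e1] at e2
    have h31 := cast31 k
    push_cast at e2 h31
    have : (3 * (k : ZMod 3) + 1) = 0 := by linear_combination e2
    rw [h31] at this
    exact one_ne_zero this
  have c2 : ∀ t x : ℤ, ∃ i : ℤ, x ≤ i ∧ i < x + (max L1 L2 : ℕ) ∧ D t (i + 1) ≠ D t i := by
    intro t x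
    by_contra hcon
    push Not at hcon
    obtain ⟨i, k, hik, h1, h2⟩ := hL2 (y + t • u + x • v)
    have e1 : σ t (x + i) = f y := by
      refine (hy _ _ _).2 ?_
      rw [add_smul x, natCast_zsmul]
      convert h1 using 1
      abel
    have e2 : σ t (x + (i + (3 * k + 1) : ℕ)) = f y := by
      refine (hy _ _ _).2 ?_
      rw [add_smul x, natCast_zsmul]
      convert h2 using 1
      abel
    have e3 : ∀ n : ℕ, n ≤ L2 → D t (x + n) = D t x := by
      intro n
      induction n with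
      | zero => intro _; simp
      | succ n ih =>
        intro hn
        rw [← ih (by omega)]
        push_cast
        rw [← add_assoc]
        exact hcon _ (by omega) (by omega)
    rw [hDσ, e3 _ (by omega)] at e1
    rw [hDσ, e3 _ (by omega)] at e2
    rw [← e1] at e2
    have h31 := cast31 k
    push_cast at e2 h31
    have : (3 * (k : ZMod 3) + 1) = 0 := by linear_combination e2
    rw [h31] at this
    exact one_ne_zero this
  have bd := hD.bdd c1 c2
  set L : ℕ := max L1 L2 with hL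
  obtain ⟨⟨t0, x0⟩, hmin⟩ := exists_argmin fun p => (D p.1 p.2 - (D 0 0 - L)).toNat
  obtain ⟨⟨t1, x1⟩, hmax⟩ := exists_argmin fun p => (D 0 0 + L - D p.1 p.2).toNat
  have hmin' : ∀ t x, D t0 x0 ≤ D t x := by
    intro t x
    have h1 := hmin (t, x)
    have h2 := bd 0 0 t x
    have h3 := bd 0 0 t0 x0
    simp only at h1
    omega
  have hmax' : ∀ t x, D t x ≤ D t1 x1 := by
    intro t x
    have h1 := hmax (t, x)
    have h2 := bd t x 0 0
    have h3 := bd t1 x1 0 0
    simp only at h1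
    omega
  clear hmin hmax
  obtain ⟨R, hR⟩ : ∃ R : ℤ, |t0| ≤ R ∧ |x0| ≤ R ∧ |t1| ≤ R ∧ |x1| ≤ R :=
    ⟨|t0| + |x0| + |t1| + |x1|, by
      have := abs_nonneg t0; have := abs_nonneg x0; have := abs_nonneg t1
      have := abs_nonneg x1; omega⟩
  -- the window
  set O : Set TT := ⋂ i ∈ Finset.Icc (-R) R, ⋂ j ∈ Finset.Icc (-R) R,
    {z | z + i • u + j • v ∈ U (σ i j)} with hO
  have hOo : IsOpen O := by
    refine isOpen_biInter_finset fun i _ => isOpen_biInter_finset fun j _ => ?_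
    exact (hUo _).preimage (by fun_prop)
  have hyO : y ∈ O := by
    simp only [hO, Set.mem_iInter]
    intro i _ j _
    exact (hy i j _).1 rfl
  obtain ⟨k, hk⟩ := return3 hOo ⟨y, hyO⟩ hu y
  set n : ℕ := 3 * k + 1 with hn
  have same : ∀ i j : ℤ, -R ≤ i → i ≤ R → -R ≤ j → j ≤ R → σ (n + i) j = σ i j := by
    intro i j h1 h2 h3 h4
    refine (hy _ _ _).2 ?_
    simp only [hO, Set.mem_iInter] at hk
    have := hk i (Finset.mem_Icc.2 ⟨h1, h2⟩) j (Finset.mem_Icc.2 ⟨h3, h4⟩)
    rw [add_smul (n : ℤ), natCast_zsmul, ← add_assoc]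
    exact this
  have hR0 : 0 ≤ R := (abs_nonneg _).trans hR.1
  have E : ∀ i j : ℤ, -R ≤ i → i ≤ R → -R ≤ j → j ≤ R →
      D (n + i) j - D i j = D n 0 - D 0 0 := by
    intro i j h1 h2 h3 h4
    have r1 := line_const (R := R) (g := fun i => D (n + i) 0 - D i 0) (fun i h5 h6 => by
      rw [← add_assoc, Dh, Dh, add_assoc, same _ _ (by omega) h6 (by omega) hR0,
        same _ _ h5 (by omega) (by omega) hR0]
      ring) i h1 h2
    have r2 := line_const (R := R) (g := fun j => D (n + i) j - D i j) (fun j h5 h6 => by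
      rw [Dw, Dw, same _ _ h1 h2 (by omega) h6, same _ _ h1 h2 h5 (by omega)]
      ring) j h3 h4
    simp only [add_zero] at r1 r2
    rw [r2, r1]
  have i0 := abs_le.1 hR.1
  have i1 := abs_le.1 hR.2.1
  have i2 := abs_le.1 hR.2.2.1
  have i3 := abs_le.1 hR.2.2.2
  have E0 := E t0 x0 i0.1 i0.2 i1.1 i1.2
  have E1 := E t1 x1 i2.1 i2.2 i3.1 i3.2
  have hge := hmin' (n + t0) x0
  have hle := hmax' (n + t1) x1
  have heq : D n 0 = D 0 0 := by omega
  have s0 := hDσ n 0
  have s1 := hDσ 0 0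
  have s2 := same 0 0 (by omega) hR0 (by omega) hR0
  rw [add_zero] at s2
  rw [s2, heq] at s0
  have h31 := cast31 k
  have : ((n : ℤ) : ZMod 3) = 0 := by
    push_cast at s0 s1 ⊢
    linear_combination s1 - s0
  rw [Int.cast_natCast, h31] at this
  exact one_ne_zero this

end Pool.Agent.N621.LC
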