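import Pool.Agent.N621.LC.Base
import Pool.Agent.W927.BM.Own

set_option autoImplicit false

/-! # A subshift of finite type with Baire measurable but without measurable equivariant maps -/

noncomputable section

namespace Pool.Agent.N621.LC

open MeasureTheory Pool.Agent.W927 Pool.Agent.W927.BM Topology Filter

section
variable {n : ℕ} (hn : 2 ≤ n) {k : ℕ} (eLab : Fin k ≃ BM.Lab)

/-- the local rule at the origin -/
def ruleA (s : Conf n (Fin k)) : Prop := Rule (fun t x => eLab (s (emb hn t x))) 0 0

/-- the subshift -/
def SubA : Set (Conf n (Fin k)) := {s | ∀ g, ruleA hn eLab (shift g s)}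

theorem isSFT_SubA : IsSFT (SubA hn eLab) := by
  refine isSFT_of_window (winN hn) _ ?_
  intro s s' h hs
  refine Rule_congr (t := 0) (x := 0) (t' := 0) (x' := 0) ?_ hs
  intro t y ht hy
  simp only [zero_add]
  rw [h _ (mem_winN hn ht hy)]

theorem mem_SubA {s : Conf n (Fin k)} (h : ∀ g : Fin n → ℤ, ∀ t x : ℤ,
    Rule (fun t' x' => eLab (s (emb hn t' x' + g))) t x) : s ∈ SubA hn eLab :=
  fun g => h g 0 0

theorem hasBaire_SubA : HasBaire (SubA hn eLab) := by
  classical
  set T : ℤ → ℤ → FreePart n → FreePart n := fun t x => act (emb hn t x) with hT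
  have T0 : ∀ y, T 0 0 y = y := fun y => by simp only [hT, emb_zero, act_zero]
  have Tadd : ∀ s t x z y, T (s + t) (x + z) y = T s x (T t z y) := fun s t x z y => by
    simp only [hT, emb_add, act_add]
  obtain ⟨f, G, hf, hG, hGinv, hGres, hGR⟩ := pos (FreePart n) T T0 Tadd
    (fun t x => measurable_act _) (fun t x y h => emb_eq_zero hn (act_free _ _ h))
  obtain ⟨γ, hγ⟩ := exists_cocycle (Γ := Fin n → ℤ) (X := FreePart n) (a := act) act_zero act_add
    act_free
  let c : FreePart n → Bool := fun y => decide (γ y ⟨0, by omega⟩ % 2 = 0)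
  set f0 : FreePart n → Fin k := fun y => eLab.symm (f y) with hf0
  set f1 : FreePart n → Fin k := fun y => eLab.symm (if y ∈ core G then f y else chk (c y)) with hf1
  have hf0m : Measurable f0 := by
    refine measurable_to_countable' fun i => ?_
    have : f0 ⁻¹' {i} = f ⁻¹' {eLab i} := by
      ext y
      simp only [hf0, Set.mem_preimage, Set.mem_singleton_iff]
      exact Equiv.symm_apply_eq eLab
    rw [this]
    exact hf _
  refine ⟨mk f1, ⟨?_, fun g x y h => mk_equiv f1 g x y h⟩, ?_⟩
  · intro y
    refine mem_SubA hn eLab fun g t x => ?_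
    have e : (fun t' x' => eLab (mk f1 y (emb hn t' x' + g))) =
        fun t' x' => eLab (f1 (T t' x' (act g y))) := by
      funext t' x'
      simp only [mk, act_add, hT]
    rw [e]
    by_cases hy : act g y ∈ core G
    · have e : (fun t' x' => eLab (f1 (T t' x' (act g y)))) = fun t' x' => f (T t' x' (act g y)) := by
        funext t' x'
        simp only [hf1, Equiv.apply_symm_apply]
        rw [if_pos ((core_inv _).2 hy)]
      rw [e]
      exact hGR _ (core_sub G hy) t x
    · have e : (fun t' x' => eLab (f1 (T t' x' (act g y)))) =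
          fun t' x' => chk (c (T t' x' (act g y))) := by
        funext t' x'
        simp only [hf1, Equiv.apply_symm_apply]
        rw [if_neg (fun h => hy ((core_inv _).1 h))]
      rw [e]
      refine chk_rule (c := fun t' x' => c (T t' x' (act g y))) (fun _ _ => rfl) ?_ t x
      intro t x z h
      simp only [c, hT, hγ, Pi.add_apply, emb_fst, decide_eq_decide] at h
      omega
  · intro B hB
    have h1 : BaireMeasurableSet (mk f0 ⁻¹' B) :=
      (measurable_mk hf0m hB).baireMeasurableSet
    refine h1.congr ?_
    filter_upwards [core_residual hGres] with y hy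
    refine propext ?_
    have : mk f0 y = mk f1 y := by
      funext h
      simp only [mk, hf0, hf1]
      rw [if_pos ((core_inv _).2 hy)]
    change mk f0 y ∈ B ↔ mk f1 y ∈ B
    rw [this]

theorem not_hasMeasure_SubA : ¬ HasMeasure (SubA hn eLab) := by
  intro H
  obtain ⟨α, hα⟩ := exists_alpha n
  have : IsProbabilityMeasure (volume : Measure TT) := ⟨by simp⟩
  obtain ⟨T, hT, hTm⟩ := H (Measure.map (codeF hα) volume)
    (Measure.isProbabilityMeasure_map (measurable_codeF hα).aemeasurable)
  refine circle_neg hn hα ⟨fun θ => eLab (T (codeF hα θ) 0), ?_, ?_⟩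
  · intro l
    have h0 : Measurable fun s : Conf n (Fin k) => s 0 := measurable_pi_apply 0
    have h1 : MeasurableSet {s : Conf n (Fin k) | eLab (s 0) ∈ ({l} : Set BM.Lab)} :=
      h0 (MeasurableSet.of_discrete (s := eLab ⁻¹' {l}))
    exact (hTm _ h1).preimage ((measurable_codeF hα).quasiMeasurePreserving volume)
  · refine Filter.Eventually.of_forall fun y t x => ?_
    have h1 : Rule (fun t' x' => eLab (T (codeF hα y) (emb hn t' x' + emb hn t x))) 0 0 :=
      hT.mem (codeF hα y) (emb hn t x)
    refine Rule_congr (t := 0) (x := 0) (t' := t) (x' := x) ?_ h1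
    intro s z _ _
    rw [zero_add, zero_add, ← emb_add, read hα hT, add_comm y, add_comm s t, add_comm z x]

end

end Pool.Agent.N621.LC

end
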