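import Pool.Agent.N621.LC.Squares

set_option autoImplicit false

/-! # Almost everywhere solution of the block rule for free nonsingular Borel actions of `ℤ²` -/

noncomputable section

namespace Pool.Agent.N621.LC

open Set MeasureTheory
open scoped ENNReal

section
variable {X : Type} [MeasurableSpace X] {T : ℤ → ℤ → X → X} {M : ℕ → ℕ} {A : ℕ → Set X}

theorem meas_Kept (hT : FAct T) (hA : ∀ k, Measurable fun y => y ∈ A k) (k : ℕ) :
    Measurable fun y => y ∈ Kept T M A k := by
  unfold Kept
  refine (hA k).and (Measurable.forall fun j => measurable_const.imp (Measurable.or ?_ ?_))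
  · exact Measurable.exists fun t => Measurable.exists fun x => measurable_const.and
      (measurable_const.and (measurable_const.and (measurable_const.and
        ((hA j).comp (hT.meas _ _)))))
  · exact Measurable.forall fun t => Measurable.forall fun x => measurable_const.imp
      (measurable_const.imp (measurable_const.imp (measurable_const.imp
        ((hA j).comp (hT.meas _ _)).not)))

theorem meas_Inn (hT : FAct T) (hA : ∀ k, Measurable fun y => y ∈ A k) (k0 k : ℕ) (t x : ℤ) :
    Measurable fun y => Inn T M A k0 k t x y := by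
  unfold Inn
  refine measurable_const.and (measurable_const.and
    (((meas_Kept hT hA k).comp (hT.meas _ _)).and ?_))
  exact Measurable.forall fun k' => measurable_const.imp (measurable_const.imp
    (Measurable.forall fun t' => Measurable.forall fun x' => measurable_const.imp
      ((meas_Kept hT hA k').comp (hT.meas _ _)).not))

theorem meas_Pos (hT : FAct T) (hA : ∀ k, Measurable fun y => y ∈ A k)
    (i : ℕ × ℤ × ℤ × ℕ × ℤ × ℤ) : Measurable fun y => Pos T M A i y := by
  unfold Pos
  exact (meas_Inn hT hA _ _ _ _).and ((meas_Inn hT hA _ _ _ _).comp (hT.meas _ _))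

theorem meas_G0 (hT : FAct T) (hA : ∀ k, Measurable fun y => y ∈ A k) (r : ℕ → ℕ) :
    Measurable fun y => y ∈ G0 T M A r := by
  unfold G0
  exact Measurable.exists fun K => Measurable.forall fun k => measurable_const.imp
    (meas_Good hT (hA k) _ _)

theorem meas_GG (hT : FAct T) (hA : ∀ k, Measurable fun y => y ∈ A k) (r : ℕ → ℕ) :
    Measurable fun y => y ∈ GG T M A r := by
  unfold GG
  exact Measurable.forall fun t => Measurable.forall fun x => (meas_G0 hT hA r).comp (hT.meas _ _)

end

theorem pos_plane {X : Type} [TopologicalSpace X] [PolishSpace X] [MeasurableSpace X]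
    [BorelSpace X] {T : ℤ → ℤ → X → X} (hT : FAct T) (ν : Measure X) [IsFiniteMeasure ν]
    (hq : ∀ t x B, MeasurableSet B → ν B = 0 → ν (T t x ⁻¹' B) = 0) :
    ∃ (f : X → ZMod 3) (G : Set X), (∀ l, MeasurableSet (f ⁻¹' {l})) ∧ MeasurableSet G ∧
      (∀ t x, ∀ y ∈ G, T t x y ∈ G) ∧ ν Gᶜ = 0 ∧
      ∀ y ∈ G, ∀ t x, Blk (fun t' x' => f (T t' x' y)) t x := by
  classical
  have hδ : ∀ k : ℕ, ((2 : ℝ≥0∞)⁻¹ ^ k) ≠ 0 := fun k => by simp
  choose Mf hMf Af hAf hsf hνf using fun (r k : ℕ) => one_scale hT ν r (hδ k)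
  obtain ⟨r, hr0', hrs⟩ : ∃ r : ℕ → ℕ, r 0 = 10 ∧ ∀ k, r (k + 1) = Mf (r k) k + 10 :=
    ⟨fun k => Nat.rec 10 (fun k r => Mf r k + 10) k, rfl, fun _ => rfl⟩
  have hr0 : 10 ≤ r 0 := hr0'.ge
  set M : ℕ → ℕ := fun k => Mf (r k) k with hM
  set A : ℕ → Set X := fun k => Af (r k) k with hA
  have hrM : ∀ k, r k ≤ M k := fun k => hMf _ _
  have hMr : ∀ k, M k + 10 ≤ r (k + 1) := fun k => by rw [hrs]
  have hAm : ∀ k, Measurable fun y => y ∈ A k := fun k => hAf _ _
  have hs : ∀ k y s z, |s| < (M k : ℤ) → |z| < (M k : ℤ) → y ∈ A k → T s z y ∈ A k →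
      s = 0 ∧ z = 0 := fun k => hsf _ _
  have hν : ∀ k : ℕ, ν {y | y ∉ Good T (r k : ℕ) (M k : ℕ) (A k)} ≤ 2⁻¹ ^ k := fun k => hνf (r k) k
  have hG0 : ν (G0 T M A r)ᶜ = 0 := by
    have h1 : (∑' k : ℕ, ν {y | y ∉ Good T (r k : ℕ) (M k : ℕ) (A k)}) ≠ ∞ := by
      refine ne_top_of_le_ne_top ?_ (ENNReal.tsum_le_tsum hν)
      rw [ENNReal.tsum_geometric]
      simp
    have h2 := ae_eventually_notMem h1
    have h3 : ∀ᵐ y ∂ν, y ∈ G0 T M A r := by
      filter_upwards [h2] with y hy
      obtain ⟨K, hK⟩ := Filter.eventually_atTop.1 hy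
      refine ⟨K, fun k hk => ?_⟩
      have := hK k hk
      simpa using this
    exact h3
  let f : X → ZMod 3 := fun y => if h : ∃ i, Pos T M A i y then valOf M h.choose else 0
  have hf : ∀ y i, Pos T M A i y → f y = valOf M i := by
    intro y i hi
    have h : ∃ i, Pos T M A i y := ⟨i, hi⟩
    have : f y = valOf M h.choose := dif_pos h
    rw [this, Pos.unique hT hs h.choose_spec hi]
  refine ⟨f, GG T M A r, ?_, measurableSet_setOfPred.2 (meas_GG hT hAm r), ?_, ?_, ?_⟩
  · intro l
    have : f ⁻¹' {l} = {y | (∃ i, Pos T M A i y ∧ valOf M i = l) ∨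
        (0 = l ∧ ∀ i, ¬ Pos T M A i y)} := by
      ext y
      simp only [mem_preimage, mem_singleton_iff, mem_ofPred_eq]
      constructor
      · intro h
        by_cases hex : ∃ i, Pos T M A i y
        · obtain ⟨i, hi⟩ := hex
          exact Or.inl ⟨i, hi, by rw [← hf y i hi, h]⟩
        · right
          have : f y = 0 := dif_neg hex
          push Not at hex
          exact ⟨by rw [← h, this], hex⟩
      · rintro (⟨i, hi, h⟩ | ⟨h, hn⟩)
        · rw [hf y i hi, h]
        · have : f y = 0 := dif_neg (by push Not; exact hn)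
          rw [this, h]
    rw [this]
    refine measurableSet_setOfPred.2 (Measurable.or ?_ ?_)
    · exact Measurable.exists fun i => (meas_Pos hT hAm i).and measurable_const
    · exact measurable_const.and (Measurable.forall fun i => (meas_Pos hT hAm i).not)
  · intro t x y hy s z
    rw [hT.comp (u := s + t) (v := z + x) rfl rfl]
    exact hy _ _
  · have : (GG T M A r)ᶜ = ⋃ t : ℤ, ⋃ x : ℤ, T t x ⁻¹' (G0 T M A r)ᶜ := by
      ext y
      simp only [GG, mem_compl_iff, mem_ofPred_eq, mem_iUnion, mem_preimage, not_forall]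
    rw [this]
    refine measure_iUnion_null fun t => measure_iUnion_null fun x => hq t x _ ?_ hG0
    exact (measurableSet_setOfPred.2 (meas_G0 hT hAm r)).compl
  · intro y hy t x
    have hy' : T t x y ∈ GG T M A r := by
      intro s z
      rw [hT.comp (u := s + t) (v := z + x) rfl rfl]
      exact hy _ _
    have h1 := blk_of hT hs hr0 hrM hMr hy' (g := f) (fun _ _ _ h => hf _ _ h)
    unfold Blk at h1 ⊢
    simp only [zero_add] at h1
    rw [hT.comp (s := 0) (x := 0) (u := t) (v := x) (by ring) (by ring),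
      hT.comp (s := 1) (x := 0) (u := t + 1) (v := x) (by ring) (by ring),
      hT.comp (s := 0) (x := 1) (u := t) (v := x + 1) (by ring) (by ring),
      hT.comp (s := 1) (x := 1) (u := t + 1) (v := x + 1) (by ring) (by ring)] at h1
    exact h1

end Pool.Agent.N621.LC

end
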