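import Pool.Agent.N621.LC.Base
import Pool.Agent.N621.LC.NegB
import Pool.Agent.N621.LC.PosB
import Pool.Agent.W927.BM.Own

set_option autoImplicit false

/-! # A subshift of finite type with measurable but without Borel equivariant maps -/

noncomputable section

namespace Pool.Agent.N621.LC

open MeasureTheory Pool.Agent.W927 Topology Filter Set
open Pool.Agent.W927.BM (emb emb_zero emb_add emb_eq_zero emb_fst emb_snd exists_cocycle)
open scoped ENNReal

section
variable {n : ℕ} (hn : 2 ≤ n) {k : ℕ} (e : Fin k ≃ ZMod 3)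

/-- the local rule at the origin -/
def ruleB (s : Conf n (Fin k)) : Prop := Blk (fun t x => e (s (emb hn t x))) 0 0

/-- the subshift -/
def SubB : Set (Conf n (Fin k)) := {s | ∀ g, ruleB hn e (shift g s)}

theorem isSFT_SubB : IsSFT (SubB hn e) := by
  classical
  refine isSFT_of_window {emb hn 0 0, emb hn 1 0, emb hn 0 1, emb hn 1 1} _ ?_
  intro s s' h hs
  have h1 := h (emb hn 0 0) (by simp)
  have h2 := h (emb hn 1 0) (by simp)
  have h3 := h (emb hn 0 1) (by simp)
  have h4 := h (emb hn 1 1) (by simp)
  unfold ruleB Blk at hs ⊢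
  simp only [zero_add] at hs ⊢
  rw [← h1, ← h2, ← h3, ← h4]
  exact hs

theorem fact_act : FAct (X := FreePart n) (fun t x => act (emb hn t x)) where
  zero y := by simp only [emb_zero, act_zero]
  add s t x z y := by simp only [emb_add, act_add]
  meas t x := measurable_act _
  free t x y h := emb_eq_zero hn (act_free _ _ h)

theorem cast_emod (z : ℤ) : ((z : ℤ) : ZMod 3) = z := rfl

theorem hasMeasure_SubB : HasMeasure (SubB hn e) := by
  classical
  intro μ hμ
  obtain ⟨w, hw0, hw1⟩ := ENNReal.exists_pos_sum_of_countable' (ε := 1) one_ne_zero (Fin n → ℤ)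
  set ν : Measure (FreePart n) := Measure.sum fun g : Fin n → ℤ => w g • μ.map (act g) with hν
  have hνB : ∀ B, MeasurableSet B → ν B = ∑' g : Fin n → ℤ, w g * μ (act g ⁻¹' B) := by
    intro B hB
    rw [hν, Measure.sum_apply _ hB]
    refine tsum_congr fun g => ?_
    rw [Measure.smul_apply, Measure.map_apply (measurable_act g) hB, smul_eq_mul]
  have hfin : IsFiniteMeasure ν := by
    refine ⟨?_⟩
    rw [hνB _ MeasurableSet.univ]
    refine lt_of_le_of_lt (ENNReal.tsum_le_tsum fun g => ?_) (hw1.trans ENNReal.one_lt_top)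
    rw [preimage_univ, measure_univ, mul_one]
  have hnull : ∀ B, MeasurableSet B → (ν B = 0 ↔ ∀ g, μ (act g ⁻¹' B) = 0) := by
    intro B hB
    rw [hνB B hB, ENNReal.tsum_eq_zero]
    refine forall_congr' fun g => ?_
    rw [mul_eq_zero]
    exact ⟨fun h => h.resolve_left (hw0 g).ne', Or.inr⟩
  obtain ⟨f, G, hf, hG, hGinv, hGν, hGR⟩ := pos_plane (fact_act hn) ν (by
    intro t x B hB h
    rw [hnull B hB] at h
    rw [hnull _ (measurable_act _ hB)]
    intro g
    have := h (emb hn t x + g)
    rwa [show act (emb hn t x + g) = act (emb hn t x) ∘ act g from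
      funext fun y => act_add _ _ y, preimage_comp] at this)
  rw [hnull _ hG.compl] at hGν
  obtain ⟨γ, hγ⟩ := exists_cocycle (Γ := Fin n → ℤ) (X := FreePart n) (a := act) act_zero act_add
    act_free
  let c : FreePart n → ZMod 3 := fun y =>
    ((γ y ⟨0, by omega⟩ : ℤ) : ZMod 3) + ((γ y ⟨1, by omega⟩ : ℤ) : ZMod 3)
  set f0 : FreePart n → Fin k := fun y => e.symm (f y) with hf0
  set f1 : FreePart n → Fin k := fun y => e.symm (if y ∈ core G then f y else c y) with hf1
  have hf0m : Measurable f0 := by
    refine measurable_to_countable' fun i => ?_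
    have : f0 ⁻¹' {i} = f ⁻¹' {e i} := by
      ext y
      simp only [hf0, Set.mem_preimage, Set.mem_singleton_iff]
      exact Equiv.symm_apply_eq e
    rw [this]
    exact hf _
  have hcore : ∀ᵐ y ∂μ, y ∈ core G := by
    have : (core G)ᶜ = ⋃ g, act g ⁻¹' Gᶜ := by
      ext y; simp [core]
    rw [ae_iff]
    change μ (core G)ᶜ = 0
    rw [this]
    exact measure_iUnion_null hGν
  refine ⟨mk f1, ⟨?_, fun g x y h => mk_equiv f1 g x y h⟩, ?_⟩
  · intro y g
    change Blk (fun t' x' => e (mk f1 y (emb hn t' x' + g))) 0 0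
    have e1 : (fun t' x' => e (mk f1 y (emb hn t' x' + g))) =
        fun t' x' => e (f1 (act (emb hn t' x') (act g y))) := by
      funext t' x'
      simp only [mk, act_add]
    rw [e1]
    by_cases hy : act g y ∈ core G
    · have e2 : (fun t' x' => e (f1 (act (emb hn t' x') (act g y)))) =
          fun t' x' => f (act (emb hn t' x') (act g y)) := by
        funext t' x'
        simp only [hf1, Equiv.apply_symm_apply]
        rw [if_pos ((core_inv _).2 hy)]
      rw [e2]
      exact hGR _ (core_sub G hy) 0 0
    · have e2 : (fun t' x' => e (f1 (act (emb hn t' x') (act g y)))) =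
          fun t' x' : ℤ => c (act g y) + t' + x' := by
        funext t' x'
        simp only [hf1, Equiv.apply_symm_apply]
        rw [if_neg (fun h => hy ((core_inv _).1 h))]
        simp only [c, hγ (emb hn t' x'), Pi.add_apply, emb_fst, emb_snd]
        push_cast
        ring
      rw [e2]
      exact ⟨c (act g y), 0, 0, 0, 0, by norm_num, by norm_num, by norm_num, by norm_num,
        by norm_num, by simp, by simp, by simp, by push_cast; ring⟩
  · intro B hB
    have h1 : NullMeasurableSet (mk f0 ⁻¹' B) μ := (measurable_mk hf0m hB).nullMeasurableSet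
    refine h1.congr ?_
    filter_upwards [hcore] with y hy
    refine propext ?_
    have : mk f0 y = mk f1 y := by
      funext h
      simp only [mk, hf0, hf1]
      rw [if_pos ((core_inv _).2 hy)]
    change mk f0 y ∈ B ↔ mk f1 y ∈ B
    rw [this]

theorem lin_emb (α : Fin n → TT) (t x : ℤ) :
    lin α (emb hn t x) = t • lin α (emb hn 1 0) + x • lin α (emb hn 0 1) := by
  rw [← map_zsmul, ← map_zsmul, ← map_add]
  congr 1
  unfold emb
  simp [← Pi.single_smul]

theorem not_hasBorel_SubB : ¬ HasBorel (SubB hn e) := by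
  rintro ⟨T, hT, hTm⟩
  obtain ⟨α, hα⟩ := exists_alpha n
  have hm : Measurable fun θ => T (codeF hα θ) 0 :=
    (measurable_pi_apply 0).comp (hTm.comp (measurable_codeF hα))
  refine no_borel_blk (u := lin α (emb hn 1 0)) (v := lin α (emb hn 0 1)) (hα _ ?_) (hα _ ?_)
    (f := fun θ => e (T (codeF hα θ) 0)) ?_ ?_
  · intro h
    have := (emb_eq_zero hn h).1
    omega
  · intro h
    have := (emb_eq_zero hn h).2
    omega
  · intro c
    exact hm (MeasurableSet.of_discrete (s := e ⁻¹' {c}))
  · intro y t x
    have h1 : Blk (fun t' x' => e (T (codeF hα y) (emb hn t' x' + emb hn t x))) 0 0 :=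
      hT.mem (codeF hα y) (emb hn t x)
    have h2 : ∀ t x : ℤ, cfg (fun θ => e (T (codeF hα θ) 0)) (lin α (emb hn 1 0))
        (lin α (emb hn 0 1)) y t x = e (T (codeF hα y) (emb hn t x)) := by
      intro t x
      rw [read hα hT, lin_emb hn α t x]
      unfold cfg
      rw [add_assoc]
    unfold Blk at h1 ⊢
    rw [h2, h2, h2, h2]
    simp only [zero_add, ← emb_add] at h1
    rw [add_comm t 1, add_comm x 1]
    exact h1

end

end Pool.Agent.N621.LC

end
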