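import Pool.Agent.N621.LC.Mark

set_option autoImplicit false

/-! # One scale: disjoint squares covering most points deeply -/

noncomputable section

namespace Pool.Agent.N621.LC

open Set MeasureTheory

section
variable {X : Type} [MeasurableSpace X] (T : ℤ → ℤ → X → X) (S : Set X) (n : X → ℕ)

/-- the centre assigned to `y` with radius `ρ` is `T (-t) (-x) y` -/
def Dis (ρ t x : ℤ) (y : X) : Prop :=
  |t| ≤ ρ ∧ |x| ≤ ρ ∧ T (-t) (-x) y ∈ S ∧
    ∀ t' x' : ℤ, |t'| ≤ ρ → |x'| ≤ ρ → T (-t') (-x') y ∈ S → n (T (-t) (-x) y) ≤ n (T (-t') (-x') y)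

/-- the assignment is consistent near `y` -/
def Cons (M ρ : ℤ) (y : X) : Prop :=
  ∀ u v : ℤ, |u| ≤ M → |v| ≤ M → ∀ t x, Dis T S n ρ t x y → Dis T S n ρ (t + u) (x + v) (T u v y)

/-- anchors -/
def Anch (M ρ o1 o2 : ℤ) : Set X :=
  {a | ∃ t x : ℤ, Dis T S n ρ t x a ∧ (t - o1) % M = 0 ∧ (x - o2) % M = 0 ∧
    ∀ u v : ℤ, 0 ≤ u → u < M → 0 ≤ v → v < M → Dis T S n ρ (t + u) (x + v) (T u v a)}

/-- points deep inside the squares of side `M` with anchors in `A` -/
def Good (r M : ℤ) (A : Set X) : Set X :=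
  {y | ∃ t x : ℤ, r ≤ t ∧ t < M - r ∧ r ≤ x ∧ x < M - r ∧ T (-t) (-x) y ∈ A}

variable {T S n}

theorem meas_Dis (hT : FAct T) (hS : Measurable fun y => y ∈ S) (hn : Measurable n) (ρ t x : ℤ) :
    Measurable fun y => Dis T S n ρ t x y := by
  unfold Dis
  refine measurable_const.and (measurable_const.and ((hS.comp (hT.meas _ _)).and ?_))
  refine Measurable.forall fun t' => Measurable.forall fun x' => measurable_const.imp
    (measurable_const.imp ((hS.comp (hT.meas _ _)).imp ?_))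
  exact measurableSet_setOfPred.1 (measurableSet_le (hn.comp (hT.meas _ _)) (hn.comp (hT.meas _ _)))

theorem meas_Anch (hT : FAct T) (hS : Measurable fun y => y ∈ S) (hn : Measurable n)
    (M ρ o1 o2 : ℤ) : Measurable fun y => y ∈ Anch T S n M ρ o1 o2 := by
  unfold Anch
  refine Measurable.exists fun t => Measurable.exists fun x => ?_
  refine (meas_Dis hT hS hn _ _ _).and (measurable_const.and (measurable_const.and ?_))
  exact Measurable.forall fun u => Measurable.forall fun v => measurable_const.imp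
    (measurable_const.imp (measurable_const.imp (measurable_const.imp
      ((meas_Dis hT hS hn _ _ _).comp (hT.meas _ _)))))

theorem meas_Good (hT : FAct T) {A : Set X} (hA : Measurable fun y => y ∈ A) (r M : ℤ) :
    Measurable fun y => y ∈ Good T r M A := by
  unfold Good
  exact Measurable.exists fun t => Measurable.exists fun x => measurable_const.and
    (measurable_const.and (measurable_const.and (measurable_const.and
      (hA.comp (hT.meas _ _)))))

theorem Dis.exists {ρ : ℤ} {y : X} (h : ∃ t x : ℤ, |t| ≤ ρ ∧ |x| ≤ ρ ∧ T (-t) (-x) y ∈ S) :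
    ∃ t x, Dis T S n ρ t x y := by
  obtain ⟨t, x, h⟩ := h
  obtain ⟨p, hp, hmin⟩ := (measure fun p : ℤ × ℤ => n (T (-p.1) (-p.2) y)).wf.has_min
    {p | |p.1| ≤ ρ ∧ |p.2| ≤ ρ ∧ T (-p.1) (-p.2) y ∈ S} ⟨(t, x), h⟩
  exact ⟨p.1, p.2, hp.1, hp.2.1, hp.2.2, fun t' x' h1 h2 h3 =>
    not_lt.1 (hmin (t', x') ⟨h1, h2, h3⟩)⟩

theorem Dis.unique (hT : FAct T) {K ρ : ℤ} (hK : 2 * ρ ≤ K)
    (hn : ∀ y t x, |t| ≤ K → |x| ≤ K → n (T t x y) = n y → t = 0 ∧ x = 0) {t x t' x' : ℤ} {y : X}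
    (h : Dis T S n ρ t x y) (h' : Dis T S n ρ t' x' y) : t = t' ∧ x = x' := by
  have e1 := h.2.2.2 t' x' h'.1 h'.2.1 h'.2.2.1
  have e2 := h'.2.2.2 t x h.1 h.2.1 h.2.2.1
  have e3 : T (t - t') (x - x') (T (-t) (-x) y) = T (-t') (-x') y := hT.comp (by ring) (by ring)
  have a1 := abs_le.1 h.1
  have a2 := abs_le.1 h.2.1
  have a3 := abs_le.1 h'.1
  have a4 := abs_le.1 h'.2.1
  have := hn (T (-t) (-x) y) (t - t') (x - x') (abs_le.2 ⟨by omega, by omega⟩)
    (abs_le.2 ⟨by omega, by omega⟩) (by rw [e3]; omega)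
  omega

theorem not_cons (hT : FAct T) {M ρ : ℤ} {y : X} (h : ¬ Cons T S n M ρ y) :
    ∃ t x : ℤ, T (-t) (-x) y ∈ S ∧ ρ - M ≤ max |t| |x| ∧ max |t| |x| ≤ ρ + M := by
  unfold Cons at h
  push Not at h
  obtain ⟨u, v, hu, hv, t, x, hd, hnd⟩ := h
  have e : T (-(t + u)) (-(x + v)) (T u v y) = T (-t) (-x) y := hT.comp (by ring) (by ring)
  have hu' := abs_le.1 hu
  have hv' := abs_le.1 hv
  by_cases h1 : |t + u| ≤ ρ ∧ |x + v| ≤ ρ
  · unfold Dis at hnd
    rw [e] at hnd
    push Not at hnd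
    obtain ⟨t', x', h2, h3, h4, h5⟩ := hnd h1.1 h1.2 hd.2.2.1
    have e' : T (-t') (-x') (T u v y) = T (-(t' - u)) (-(x' - v)) y := hT.comp (by ring) (by ring)
    rw [e'] at h4 h5
    refine ⟨t' - u, x' - v, h4, ?_, ?_⟩
    · by_contra hcon
      rw [not_le, max_lt_iff] at hcon
      have h6 := hd.2.2.2 (t' - u) (x' - v) (by linarith [hcon.1, abs_nonneg u])
        (by linarith [hcon.2, abs_nonneg u]) h4
      omega
    · rw [abs_le] at h2 h3
      refine max_le (abs_le.2 ⟨by omega, by omega⟩) (abs_le.2 ⟨by omega, by omega⟩)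
  · refine ⟨t, x, hd.2.2.1, ?_, ?_⟩
    · by_contra hcon
      rw [not_le, max_lt_iff, abs_lt, abs_lt] at hcon
      exact h1 ⟨abs_le.2 ⟨by omega, by omega⟩, abs_le.2 ⟨by omega, by omega⟩⟩
    · have := abs_nonneg u
      exact max_le (by linarith [hd.1]) (by linarith [hd.2.1])

open Classical in
/-- only few radii are inconsistent -/
theorem card_inc (hT : FAct T) {K M : ℤ} {N : ℕ} (hM : 0 ≤ M) (hK : (2 * M + 1) * (N + 1) ≤ K)
    (hS : ∀ y t x, |t| ≤ K → |x| ≤ K → y ∈ S → T t x y ∈ S → t = 0 ∧ x = 0) (y : X) :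
    ((Finset.range N).filter fun i : ℕ =>
      ¬ Cons T S n M (K + (2 * M + 1) * i) y).card ≤ 16 := by
  have hch : ∀ i : ℕ, ¬ Cons T S n M (K + (2 * M + 1) * i) y →
      ∃ p : ℤ × ℤ, T (-p.1) (-p.2) y ∈ S ∧ (K + (2 * M + 1) * i) - M ≤ max |p.1| |p.2| ∧
        max |p.1| |p.2| ≤ (K + (2 * M + 1) * i) + M := by
    intro i hi
    obtain ⟨t, x, h⟩ := not_cons hT hi
    exact ⟨(t, x), h⟩
  choose! p hp using hch
  have hK0 : 0 ≤ K := by
    have : (0 : ℤ) ≤ (2 * M + 1) * (N + 1) := by positivity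
    omega
  have hb : ∀ i : ℕ, i < N → ¬ Cons T S n M (K + (2 * M + 1) * i) y →
      |(p i).1| ≤ 2 * K ∧ |(p i).2| ≤ 2 * K := by
    intro i hi h
    have h1 := (hp i h).2.2
    rw [max_le_iff] at h1
    have h2 : (2 * M + 1) * i + M ≤ (2 * M + 1) * (N + 1) := by
      have : (i : ℤ) + 1 ≤ N := by exact_mod_cast hi
      nlinarith
    constructor <;> linarith [h1.1, h1.2]
  have h16 : (Finset.Icc (0 : ℤ) 3 ×ˢ Finset.Icc (0 : ℤ) 3).card = 16 := by decide
  rw [← h16]
  refine Finset.card_le_card_of_injOn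
    (fun i => (((p i).1 + 2 * K) / (K + 1), ((p i).2 + 2 * K) / (K + 1))) ?_ ?_
  · intro i hi
    simp only [Finset.coe_filter, Finset.mem_range, mem_ofPred_eq] at hi
    have h1 := hb i hi.1 hi.2
    rw [abs_le, abs_le] at h1
    simp only [Finset.coe_product, Finset.coe_Icc, mem_prod, mem_Icc]
    refine ⟨⟨Int.ediv_nonneg (by omega) (by omega), ?_⟩, ⟨Int.ediv_nonneg (by omega) (by omega), ?_⟩⟩
    · exact Int.lt_add_one_iff.1 (Int.ediv_lt_of_lt_mul (by omega) (by omega))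
    · exact Int.lt_add_one_iff.1 (Int.ediv_lt_of_lt_mul (by omega) (by omega))
  · intro i hi j hj hij
    simp only [Finset.coe_filter, Finset.mem_range, mem_ofPred_eq] at hi hj
    simp only [Prod.mk.injEq] at hij
    have near : ∀ a b : ℤ, a / (K + 1) = b / (K + 1) → |a - b| ≤ K := by
      intro a b hab
      have e1 := Int.mul_ediv_add_emod a (K + 1)
      have e2 := Int.mul_ediv_add_emod b (K + 1)
      have l1 := Int.emod_nonneg a (show K + 1 ≠ 0 by omega)
      have l2 := Int.emod_nonneg b (show K + 1 ≠ 0 by omega)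
      have l3 := Int.emod_lt_of_pos a (show 0 < K + 1 by omega)
      have l4 := Int.emod_lt_of_pos b (show 0 < K + 1 by omega)
      rw [hab] at e1
      exact abs_le.2 ⟨by omega, by omega⟩
    have n1 := near _ _ hij.1
    have n2 := near _ _ hij.2
    rw [add_sub_add_right_eq_sub] at n1 n2
    have hi' := hp i hi.2
    have hj' := hp j hj.2
    have e : T ((p i).1 - (p j).1) ((p i).2 - (p j).2) (T (-(p i).1) (-(p i).2) y) =
        T (-(p j).1) (-(p j).2) y := hT.comp (by ring) (by ring)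
    have := hS _ _ _ n1 n2 hi'.1 (by rw [e]; exact hj'.1)
    have q1 : (p i).1 = (p j).1 := by omega
    have q2 : (p i).2 = (p j).2 := by omega
    have l1 := hi'.2.1
    have l2 := hi'.2.2
    have l3 := hj'.2.1
    have l4 := hj'.2.2
    rw [q1, q2] at l1 l2
    by_contra hne
    rcases lt_or_gt_of_ne hne with h | h
    · have h5 : (i : ℤ) + 1 ≤ j := by exact_mod_cast h
      nlinarith
    · have h5 : (j : ℤ) + 1 ≤ i := by exact_mod_cast h
      nlinarith

theorem anch_sep (hT : FAct T) {K M ρ : ℤ} (hK : 2 * ρ ≤ K)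
    (hn : ∀ y t x, |t| ≤ K → |x| ≤ K → n (T t x y) = n y → t = 0 ∧ x = 0) (o1 o2 : ℤ) {y : X}
    {s z : ℤ} (hs : |s| < M) (hz : |z| < M) (h1 : y ∈ Anch T S n M ρ o1 o2)
    (h2 : T s z y ∈ Anch T S n M ρ o1 o2) : s = 0 ∧ z = 0 := by
  obtain ⟨t, x, -, a1, a2, a3⟩ := h1
  obtain ⟨t', x', -, b1, b2, b3⟩ := h2
  rw [abs_lt] at hs hz
  have c1 := a3 (max s 0) (max z 0) (by omega) (by omega) (by omega) (by omega)
  have c2 := b3 (max s 0 - s) (max z 0 - z) (by omega) (by omega) (by omega) (by omega)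
  have e : T (max s 0 - s) (max z 0 - z) (T s z y) = T (max s 0) (max z 0) y :=
    hT.comp (by ring) (by ring)
  rw [e] at c2
  have c3 := Dis.unique hT hK hn c1 c2
  have d1 : M ∣ s := by
    have : s = (t' - o1) - (t - o1) := by omega
    rw [this]
    exact Int.dvd_sub (Int.dvd_of_emod_eq_zero b1) (Int.dvd_of_emod_eq_zero a1)
  have d2 : M ∣ z := by
    have : z = (x' - o2) - (x - o2) := by omega
    rw [this]
    exact Int.dvd_sub (Int.dvd_of_emod_eq_zero b2) (Int.dvd_of_emod_eq_zero a2)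
  exact ⟨Int.eq_zero_of_abs_lt_dvd d1 (abs_lt.2 hs), Int.eq_zero_of_abs_lt_dvd d2 (abs_lt.2 hz)⟩

theorem good_of (hT : FAct T) {M r ρ : ℤ} (hM : 0 < M) {o1 o2 t x : ℤ} {y : X}
    (hc : Cons T S n M ρ y) (hd : Dis T S n ρ t x y) (h1 : r ≤ (t - o1) % M)
    (h2 : (t - o1) % M < M - r) (h3 : r ≤ (x - o2) % M) (h4 : (x - o2) % M < M - r) :
    y ∈ Good T r M (Anch T S n M ρ o1 o2) := by
  have p1 := Int.emod_nonneg (t - o1) hM.ne'
  have p2 := Int.emod_nonneg (x - o2) hM.ne'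
  have p3 := Int.emod_lt_of_pos (t - o1) hM
  have p4 := Int.emod_lt_of_pos (x - o2) hM
  set w1 := (t - o1) % M with hw1
  set w2 := (x - o2) % M with hw2
  refine ⟨w1, w2, h1, h2, h3, h4, t - w1, x - w2, ?_, ?_, ?_, ?_⟩
  · exact hc (-w1) (-w2) (abs_le.2 ⟨by omega, by omega⟩) (abs_le.2 ⟨by omega, by omega⟩) t x hd
  · rw [show t - w1 - o1 = (t - o1) - w1 by ring, hw1]
    exact Int.emod_eq_zero_of_dvd (Int.dvd_self_sub_emod)
  · rw [show x - w2 - o2 = (x - o2) - w2 by ring, hw2]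
    exact Int.emod_eq_zero_of_dvd (Int.dvd_self_sub_emod)
  · intro u v hu hu' hv hv'
    have e : T u v (T (-w1) (-w2) y) = T (u - w1) (v - w2) y := hT.comp (by ring) (by ring)
    rw [e, show t - w1 + u = t + (u - w1) by ring, show x - w2 + v = x + (v - w2) by ring]
    exact hc _ _ (abs_le.2 ⟨by omega, by omega⟩) (abs_le.2 ⟨by omega, by omega⟩) t x hd

theorem card_res {M r : ℕ} (t : ℤ) :
    ((Finset.Ico (0 : ℤ) M).filter fun o => ¬ ((r : ℤ) ≤ (t - o) % M ∧ (t - o) % M < M - r)).card ≤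
      2 * r := by
  rcases Nat.eq_zero_or_pos M with hM | hM
  · subst hM; simp
  have hM' : (0 : ℤ) < M := by exact_mod_cast hM
  calc _ ≤ (Finset.Ico (0 : ℤ) r ∪ Finset.Ico ((M : ℤ) - r) M).card := by
        refine Finset.card_le_card_of_injOn (fun o => (t - o) % M) ?_ ?_
        · intro o ho
          simp only [Finset.coe_filter, Finset.mem_Ico, mem_ofPred_eq] at ho
          have p1 := Int.emod_nonneg (t - o) hM'.ne'
          have p3 := Int.emod_lt_of_pos (t - o) hM'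
          simp only [Finset.coe_union, Finset.coe_Ico, mem_union, mem_Ico]
          omega
        · intro o ho o' ho' h
          simp only [Finset.coe_filter, Finset.mem_Ico, mem_ofPred_eq] at ho ho' h
          have h1 := (Int.emod_emod_of_dvd (t - o) (dvd_refl (M : ℤ)))
          have h2 : (M : ℤ) ∣ (t - o) - (t - o') := Int.ModEq.dvd (Int.ModEq.symm h)
          have h3 : (M : ℤ) ∣ o' - o := by
            rwa [show (t - o) - (t - o') = o' - o by ring] at h2
          have h4 := Int.eq_zero_of_abs_lt_dvd h3 (abs_lt.2 ⟨by omega, by omega⟩)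
          omega
    _ ≤ _ := by
        refine (Finset.card_union_le _ _).trans ?_
        simp only [Int.card_Ico]
        omega

end

end Pool.Agent.N621.LC

end
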