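import Pool.Agent.N621.LC.Scale

set_option autoImplicit false

/-! # One scale: the measure estimate -/

noncomputable section

namespace Pool.Agent.N621.LC

open Set MeasureTheory
open scoped ENNReal

section
variable {X : Type} [MeasurableSpace X] {T : ℤ → ℤ → X → X} {S : Set X} {n : X → ℕ}

open Classical in
theorem card_bad_i (hT : FAct T) {r M : ℕ} (hM : 0 < M) {ρ : ℤ} {y : X}
    (hex : ∃ t x, Dis T S n ρ t x y) :
    (((Finset.Ico (0 : ℤ) M) ×ˢ (Finset.Ico (0 : ℤ) M)).filter fun o =>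
      y ∉ Good T r M (Anch T S n M ρ o.1 o.2)).card ≤
      if Cons T S n M ρ y then 4 * r * M else M * M := by
  split_ifs with hc
  · obtain ⟨t, x, hd⟩ := hex
    have hsub : (((Finset.Ico (0 : ℤ) M) ×ˢ (Finset.Ico (0 : ℤ) M)).filter fun o =>
        y ∉ Good T r M (Anch T S n M ρ o.1 o.2)) ⊆
        (((Finset.Ico (0 : ℤ) M).filter fun o => ¬ ((r : ℤ) ≤ (t - o) % M ∧ (t - o) % M < M - r)) ×ˢ
          (Finset.Ico (0 : ℤ) M)) ∪
        ((Finset.Ico (0 : ℤ) M) ×ˢ
          ((Finset.Ico (0 : ℤ) M).filter fun o =>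
            ¬ ((r : ℤ) ≤ (x - o) % M ∧ (x - o) % M < M - r))) := by
      intro o ho
      rw [Finset.mem_filter, Finset.mem_product] at ho
      rw [Finset.mem_union, Finset.mem_product, Finset.mem_product, Finset.mem_filter,
        Finset.mem_filter]
      by_cases h1 : (r : ℤ) ≤ (t - o.1) % M ∧ (t - o.1) % M < M - r
      · by_cases h2 : (r : ℤ) ≤ (x - o.2) % M ∧ (x - o.2) % M < M - r
        · exact absurd (good_of hT (by exact_mod_cast hM) hc hd h1.1 h1.2 h2.1 h2.2) ho.2
        · exact Or.inr ⟨ho.1.1, ho.1.2, h2⟩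
      · exact Or.inl ⟨⟨ho.1.1, h1⟩, ho.1.2⟩
    refine (Finset.card_le_card hsub).trans ((Finset.card_union_le _ _).trans ?_)
    rw [Finset.card_product, Finset.card_product]
    have h1 := card_res (M := M) (r := r) t
    have h2 := card_res (M := M) (r := r) x
    have h3 : (Finset.Ico (0 : ℤ) M).card = M := by simp
    rw [h3]
    calc _ ≤ 2 * r * M + M * (2 * r) := add_le_add (Nat.mul_le_mul_right _ h1)
            (Nat.mul_le_mul_left _ h2)
      _ = 4 * r * M := by ring
  · refine (Finset.card_filter_le _ _).trans ?_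
    rw [Finset.card_product]
    simp

open Classical in
theorem card_bad (hT : FAct T) {r N K M : ℕ} (hM : M = (r + 1) * N) (hN : 0 < N)
    (hK : K = (2 * M + 1) * (N + 1))
    (hS : ∀ y t x, |t| ≤ (K : ℤ) → |x| ≤ (K : ℤ) → y ∈ S → T t x y ∈ S → t = 0 ∧ x = 0)
    (hS' : ∀ y, ∃ t x, |t| ≤ (K : ℤ) ∧ |x| ≤ (K : ℤ) ∧ T t x y ∈ S) (y : X) :
    ∑ i ∈ Finset.range N, (((Finset.Ico (0 : ℤ) M) ×ˢ (Finset.Ico (0 : ℤ) M)).filter fun o =>
      y ∉ Good T r M (Anch T S n M (K + (2 * M + 1) * i) o.1 o.2)).card ≤ 20 * (M * M) := by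
  have hM0 : 0 < M := by rw [hM]; positivity
  have hex : ∀ i : ℕ, ∃ t x, Dis T S n (K + (2 * M + 1) * i) t x y := by
    intro i
    obtain ⟨t, x, h1, h2, h3⟩ := hS' y
    have h4 : (0 : ℤ) ≤ (2 * M + 1) * i := by positivity
    refine Dis.exists ⟨-t, -x, by rw [abs_neg]; omega, by rw [abs_neg]; omega, ?_⟩
    rwa [neg_neg, neg_neg]
  calc _ ≤ ∑ i ∈ Finset.range N,
        (if Cons T S n M (K + (2 * M + 1) * i) y then 4 * r * M else M * M) :=
        Finset.sum_le_sum fun i _ => card_bad_i hT hM0 (hex i)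
    _ ≤ ∑ i ∈ Finset.range N, (4 * r * M +
        (if ¬ Cons T S n M (K + (2 * M + 1) * i) y then M * M else 0)) := by
        refine Finset.sum_le_sum fun i _ => ?_
        split_ifs <;> omega
    _ = N * (4 * r * M) + ((Finset.range N).filter fun i : ℕ =>
          ¬ Cons T S n M (K + (2 * M + 1) * i) y).card * (M * M) := by
        rw [Finset.sum_add_distrib, Finset.sum_const, Finset.card_range, smul_eq_mul,
          ← Finset.sum_filter, Finset.sum_const, smul_eq_mul]
    _ ≤ N * (4 * r * M) + 16 * (M * M) := by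
        have := card_inc (S := S) (n := n) hT (K := K) (M := M) (N := N) (by positivity)
          (by rw [hK]; push_cast; exact le_rfl) hS y
        gcongr
    _ ≤ 20 * (M * M) := by
        have h1 : N * r ≤ M := by rw [hM]; nlinarith
        have h2 : N * (4 * r * M) = 4 * (N * r * M) := by ring
        have h3 : N * r * M ≤ M * M := Nat.mul_le_mul_right _ h1
        omega

end

theorem one_scale {X : Type} [TopologicalSpace X] [PolishSpace X] [MeasurableSpace X]
    [BorelSpace X] {T : ℤ → ℤ → X → X} (hT : FAct T) (ν : Measure X) [IsFiniteMeasure ν] (r : ℕ)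
    {δ : ℝ≥0∞} (hδ : δ ≠ 0) : ∃ M : ℕ, r ≤ M ∧ ∃ A : Set X, (Measurable fun y => y ∈ A) ∧
      (∀ y s z, |s| < (M : ℤ) → |z| < (M : ℤ) → y ∈ A → T s z y ∈ A → s = 0 ∧ z = 0) ∧
      ν {y | y ∉ Good T r M A} ≤ δ := by
  classical
  obtain ⟨N, hN⟩ := ENNReal.exists_nat_mul_gt hδ (b := 20 * ν univ)
    (ENNReal.mul_ne_top (by norm_num) (measure_ne_top ν _))
  have hN0 : 0 < N := by
    rcases Nat.eq_zero_or_pos N with h | h
    · subst h; simp at hN
    · exact h
  obtain ⟨M, hM⟩ : ∃ M, M = (r + 1) * N := ⟨_, rfl⟩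
  obtain ⟨K, hK⟩ : ∃ K, K = (2 * M + 1) * (N + 1) := ⟨_, rfl⟩
  have hM0 : 0 < M := by rw [hM]; positivity
  obtain ⟨n, hn, hn'⟩ := exists_col hT (4 * K : ℕ)
  obtain ⟨S, hS, hS1, hS2⟩ := exists_max hT (K : ℤ) (by positivity)
  set P := (Finset.Ico (0 : ℤ) M) ×ˢ (Finset.Ico (0 : ℤ) M) with hP
  have hPc : P.card = M * M := by rw [hP, Finset.card_product]; simp
  set bad : ℕ → ℤ × ℤ → Set X := fun i o =>
    {y | y ∉ Good T r M (Anch T S n M (K + (2 * M + 1) * i) o.1 o.2)} with hbad
  have hbm : ∀ i o, MeasurableSet (bad i o) := fun i o =>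
    measurableSet_setOfPred.2 (meas_Good hT (meas_Anch hT hS hn _ _ _ _) _ _).not
  have hsum : ∑ i ∈ Finset.range N, ∑ o ∈ P, ν (bad i o) ≤ 20 * (M * M) * ν univ := by
    calc _ = ∑ i ∈ Finset.range N, ∑ o ∈ P, ∫⁻ y, (bad i o).indicator 1 y ∂ν := by
          simp only [lintegral_indicator_one (hbm _ _)]
      _ = ∑ i ∈ Finset.range N, ∫⁻ y, ∑ o ∈ P, (bad i o).indicator 1 y ∂ν := by
          refine Finset.sum_congr rfl fun i _ => ?_
          rw [lintegral_finsetSum]
          exact fun o _ => measurable_one.indicator (hbm i o)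
      _ = ∫⁻ y, ∑ i ∈ Finset.range N, ∑ o ∈ P, (bad i o).indicator 1 y ∂ν := by
          rw [lintegral_finsetSum]
          exact fun i _ => Finset.measurable_sum _ fun o _ => measurable_one.indicator (hbm i o)
      _ ≤ ∫⁻ _, 20 * (M * M) ∂ν := by
          refine lintegral_mono fun y => ?_
          have h1 := card_bad (S := S) (n := n) hT hM hN0 hK hS1 hS2 y
          have h2 : ∀ i, (∑ o ∈ P, (bad i o).indicator (1 : X → ℝ≥0∞) y) =
              ((P.filter fun o => y ∉ Good T r M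
                (Anch T S n M (K + (2 * M + 1) * i) o.1 o.2)).card : ℝ≥0∞) := by
            intro i
            rw [Finset.card_filter]
            push_cast
            refine Finset.sum_congr rfl fun o _ => ?_
            by_cases ho : y ∉ Good T r M (Anch T S n M (K + (2 * M + 1) * i) o.1 o.2)
            · rw [if_pos ho, indicator_of_mem (show y ∈ bad i o from ho)]; rfl
            · rw [if_neg ho, indicator_of_notMem (show y ∉ bad i o from ho)]
          simp only [h2]
          have h3 : ((∑ i ∈ Finset.range N, (P.filter fun o => y ∉ Good T r M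
                (Anch T S n M (K + (2 * M + 1) * i) o.1 o.2)).card : ℕ) : ℝ≥0∞) ≤
              ((20 * (M * M) : ℕ) : ℝ≥0∞) := Nat.cast_le.2 h1
          push_cast at h3
          exact h3
      _ = _ := by rw [lintegral_const]
  obtain ⟨i, hi, o, ho, hle⟩ : ∃ i ∈ Finset.range N, ∃ o ∈ P, ν (bad i o) ≤ δ := by
    by_contra hcon
    push Not at hcon
    have h1 : (M * M : ℝ≥0∞) * (N * δ) ≤ ∑ i ∈ Finset.range N, ∑ o ∈ P, ν (bad i o) := by
      calc _ = ∑ i ∈ Finset.range N, ∑ o ∈ P, δ := by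
            rw [Finset.sum_const, Finset.sum_const, Finset.card_range, hPc, nsmul_eq_mul,
              nsmul_eq_mul]
            push_cast; ring
        _ ≤ _ := Finset.sum_le_sum fun i hi => Finset.sum_le_sum fun o ho => (hcon i hi o ho).le
    have h2 := h1.trans hsum
    have h3 : (20 : ℝ≥0∞) * (M * M) * ν univ = (M * M) * (20 * ν univ) := by ring
    rw [h3] at h2
    have hMM : (M * M : ℝ≥0∞) ≠ 0 := by
      have : (M : ℝ≥0∞) ≠ 0 := by exact_mod_cast hM0.ne'
      exact mul_ne_zero this this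
    have hMt : (M * M : ℝ≥0∞) ≠ ∞ := ENNReal.mul_ne_top (by simp) (by simp)
    have h4 := (ENNReal.mul_le_mul_iff_right hMM hMt).1 h2
    exact absurd hN (not_lt.2 h4)
  refine ⟨M, ?_, _, meas_Anch hT hS hn M (K + (2 * M + 1) * i) o.1 o.2, ?_, hle⟩
  · rw [hM]; nlinarith
  · intro y s z hs hz h1 h2
    refine anch_sep hT (K := (4 * K : ℕ)) ?_ hn' o.1 o.2 hs hz h1 h2
    have h5 : (2 * (M : ℤ) + 1) * i ≤ K := by
      rw [hK]
      have : (i : ℤ) < N := by exact_mod_cast Finset.mem_range.1 hi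
      push_cast
      nlinarith
    push_cast
    omega

end Pool.Agent.N621.LC

end
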