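import Pool.Agent.N621.LC.Scale2
import Pool.Agent.N621.LC.Rect

set_option autoImplicit false

/-! # Nested squares and the labelling defined by them -/

noncomputable section

namespace Pool.Agent.N621.LC

open Set MeasureTheory

section
variable {X : Type} (T : ℤ → ℤ → X → X) (M : ℕ → ℕ) (A : ℕ → Set X)

/-- positions inside the wall square of level `k` -/
def Ran (k : ℕ) (t x : ℤ) : Prop := 4 ≤ t ∧ t < M k - 4 ∧ 4 ≤ x ∧ x < M k - 4

/-- anchors of level `k` whose squares are compatible with all higher levels -/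
def Kept (k : ℕ) : Set X :=
  {a | a ∈ A k ∧ ∀ j, k < j →
    (∃ t x : ℤ, 8 ≤ t ∧ t + M k ≤ M j - 8 ∧ 8 ≤ x ∧ x + M k ≤ M j - 8 ∧ T (-t) (-x) a ∈ A j) ∨
    (∀ t x : ℤ, -(M k : ℤ) < t → t < M j → -(M k : ℤ) < x → x < M j → T (-t) (-x) a ∉ A j)}

/-- `(t, x)` is the position of `y` in the innermost kept square of level `≥ k0`, its level is `k` -/
def Inn (k0 k : ℕ) (t x : ℤ) (y : X) : Prop :=
  k0 ≤ k ∧ Ran M k t x ∧ T (-t) (-x) y ∈ Kept T M A k ∧
    ∀ k', k0 ≤ k' → k' < k → ∀ t' x' : ℤ, Ran M k' t' x' → T (-t') (-x') y ∉ Kept T M A k'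

/-- height above the outside of the wall square -/
def Rr (k : ℕ) (t x : ℤ) : ℤ := min (min (t - 3) (M k - 4 - t)) (min (x - 3) (M k - 4 - x))

/-- value of the labelling -/
def Val (k : ℕ) (t x τ : ℤ) : ZMod 3 := ((t + x - τ + min (max (Rr M k t x) 0) τ : ℤ) : ZMod 3)

/-- type of a square with position `(p, q)` in its parent -/
def typ (p q : ℤ) : ℤ := (-(p + q)) % 3

/-- complete description of the position of `y` -/
def Pos (i : ℕ × ℤ × ℤ × ℕ × ℤ × ℤ) (y : X) : Prop :=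
  Inn T M A 0 i.1 i.2.1 i.2.2.1 y ∧
    Inn T M A (i.1 + 1) i.2.2.2.1 i.2.2.2.2.1 i.2.2.2.2.2 (T (-i.2.1) (-i.2.2.1) y)

/-- value from the description -/
def valOf (i : ℕ × ℤ × ℤ × ℕ × ℤ × ℤ) : ZMod 3 :=
  Val M i.1 i.2.1 i.2.2.1 (typ i.2.2.2.2.1 i.2.2.2.2.2)

/-- points which are deep in the squares of all large levels -/
def G0 (r : ℕ → ℕ) : Set X := {y | ∃ K, ∀ k, K ≤ k → y ∈ Good T (r k) (M k) (A k)}

/-- the invariant set -/
def GG (r : ℕ → ℕ) : Set X := {y | ∀ t x : ℤ, T t x y ∈ G0 T M A r}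

end

theorem four {f0 f1 g0 g1 : ℤ} (τ : ℤ) (h1 : f0 ≤ f1 + 1) (h2 : f1 ≤ f0 + 1) (h3 : g0 ≤ g1 + 1)
    (h4 : g1 ≤ g0 + 1) : ∃ (m : ℤ) (a b c d : ℕ), a ≤ 1 ∧ b ≤ 1 ∧ c ≤ 1 ∧ d ≤ 1 ∧
      a + b + c + d ≤ 2 ∧ min (max (min f0 g0) 0) τ = m + a ∧ min (max (min f1 g0) 0) τ = m + b ∧
      min (max (min f0 g1) 0) τ = m + c ∧ min (max (min f1 g1) 0) τ = m + d := by
  obtain ⟨v, hv⟩ : ∃ v, v = min (min f0 f1) (min g0 g1) := ⟨_, rfl⟩
  have k1 : v ≤ min f0 g0 ∧ min f0 g0 ≤ v + 1 := by omega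
  have k2 : v ≤ min f1 g0 ∧ min f1 g0 ≤ v + 1 := by omega
  have k3 : v ≤ min f0 g1 ∧ min f0 g1 ≤ v + 1 := by omega
  have k4 : v ≤ min f1 g1 ∧ min f1 g1 ≤ v + 1 := by omega
  have k5 : (min f0 g0 = v ∧ min f1 g0 = v) ∨ (min f0 g1 = v ∧ min f1 g1 = v) ∨
      (min f0 g0 = v ∧ min f0 g1 = v) ∨ (min f1 g0 = v ∧ min f1 g1 = v) := by
    rcases le_total f0 f1 with a | a <;> rcases le_total g0 g1 with b | b
    · rcases le_total f0 g0 with c | c
      · right; right; left; omega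
      · left; omega
    · rcases le_total f0 g1 with c | c
      · right; right; left; omega
      · right; left; omega
    · rcases le_total f1 g0 with c | c
      · right; right; right; omega
      · left; omega
    · rcases le_total f1 g1 with c | c
      · right; right; right; omega
      · right; left; omega
  have key : ∀ w : ℤ, v ≤ w → w ≤ v + 1 → min (max v 0) τ ≤ min (max w 0) τ ∧
      min (max w 0) τ ≤ min (max v 0) τ + 1 := by
    intro w a b
    omega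
  generalize min f0 g0 = v1 at *
  generalize min f1 g0 = v2 at *
  generalize min f0 g1 = v3 at *
  generalize min f1 g1 = v4 at *
  have c1 := key v1 k1.1 k1.2
  have c2 := key v2 k2.1 k2.2
  have c3 := key v3 k3.1 k3.2
  have c4 := key v4 k4.1 k4.2
  obtain ⟨m, hm⟩ : ∃ m, m = min (max v 0) τ := ⟨_, rfl⟩
  rw [← hm] at c1 c2 c3 c4
  have c5 : (min (max v1 0) τ = m ∧ min (max v2 0) τ = m) ∨
      (min (max v3 0) τ = m ∧ min (max v4 0) τ = m) ∨
      (min (max v1 0) τ = m ∧ min (max v3 0) τ = m) ∨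
      (min (max v2 0) τ = m ∧ min (max v4 0) τ = m) := by
    rcases k5 with ⟨rfl, h⟩ | ⟨rfl, h⟩ | ⟨rfl, h⟩ | ⟨rfl, h⟩ <;> rw [h, ← hm] <;> simp
  generalize min (max v1 0) τ = w1 at *
  generalize min (max v2 0) τ = w2 at *
  generalize min (max v3 0) τ = w3 at *
  generalize min (max v4 0) τ = w4 at *
  exact ⟨m, (w1 - m).toNat, (w2 - m).toNat, (w3 - m).toNat, (w4 - m).toNat, by omega, by omega,
    by omega, by omega, by omega, by omega, by omega, by omega, by omega⟩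

theorem typ_bd (p q : ℤ) : 0 ≤ typ p q ∧ typ p q ≤ 2 := by
  unfold typ; omega

theorem typ_cast (p q : ℤ) : ((typ p q : ℤ) : ZMod 3) = -((p : ZMod 3) + q) := by
  have : typ p q = -(p + q) - 3 * (-(p + q) / 3) := by unfold typ; omega
  rw [this]
  push_cast
  have h3 : (3 : ZMod 3) = 0 := by decide
  rw [h3]; ring

section
variable {X : Type} [MeasurableSpace X] {T : ℤ → ℤ → X → X} {M : ℕ → ℕ} {A : ℕ → Set X}
  {r : ℕ → ℕ}

theorem sepA (hT : FAct T)
    (hs : ∀ k y s z, |s| < (M k : ℤ) → |z| < (M k : ℤ) → y ∈ A k → T s z y ∈ A k → s = 0 ∧ z = 0)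
    {k : ℕ} {y : X} {t x t' x' : ℤ} (h : T (-t) (-x) y ∈ A k) (h' : T (-t') (-x') y ∈ A k)
    (h1 : |t - t'| < M k) (h2 : |x - x'| < M k) : t = t' ∧ x = x' := by
  have e : T (t - t') (x - x') (T (-t) (-x) y) = T (-t') (-x') y := hT.comp (by ring) (by ring)
  have := hs k _ _ _ h1 h2 h (by rw [e]; exact h')
  omega

theorem Inn.unique (hT : FAct T)
    (hs : ∀ k y s z, |s| < (M k : ℤ) → |z| < (M k : ℤ) → y ∈ A k → T s z y ∈ A k → s = 0 ∧ z = 0)
    {k0 k k' : ℕ} {t x t' x' : ℤ} {y : X} (h : Inn T M A k0 k t x y)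
    (h' : Inn T M A k0 k' t' x' y) : k = k' ∧ t = t' ∧ x = x' := by
  have hk : k = k' := by
    rcases lt_trichotomy k k' with e | e | e
    · exact absurd h.2.2.1 (h'.2.2.2 k h.1 e t x h.2.1)
    · exact e
    · exact absurd h'.2.2.1 (h.2.2.2 k' h'.1 e t' x' h'.2.1)
  subst hk
  obtain ⟨-, ⟨a1, a2, a3, a4⟩, a5, -⟩ := h
  obtain ⟨-, ⟨b1, b2, b3, b4⟩, b5, -⟩ := h'
  exact ⟨rfl, sepA hT hs a5.1 b5.1 (abs_lt.2 ⟨by omega, by omega⟩) (abs_lt.2 ⟨by omega, by omega⟩)⟩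

theorem Pos.unique (hT : FAct T)
    (hs : ∀ k y s z, |s| < (M k : ℤ) → |z| < (M k : ℤ) → y ∈ A k → T s z y ∈ A k → s = 0 ∧ z = 0)
    {i i' : ℕ × ℤ × ℤ × ℕ × ℤ × ℤ} {y : X} (h : Pos T M A i y) (h' : Pos T M A i' y) : i = i' := by
  obtain ⟨k, t, x, j, p, q⟩ := i
  obtain ⟨k', t', x', j', p', q'⟩ := i'
  obtain ⟨h1, h2⟩ := h
  obtain ⟨h1', h2'⟩ := h'
  simp only at h1 h2 h1' h2'
  obtain ⟨rfl, rfl, rfl⟩ := Inn.unique hT hs h1 h1'
  obtain ⟨rfl, rfl, rfl⟩ := Inn.unique hT hs h2 h2'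
  rfl

/-- a kept square is deep in every square of higher level which meets it -/
theorem nest (hT : FAct T)
    (hs : ∀ k y s z, |s| < (M k : ℤ) → |z| < (M k : ℤ) → y ∈ A k → T s z y ∈ A k → s = 0 ∧ z = 0)
    {k j : ℕ} (hkj : k < j) {a : X} (ha : a ∈ Kept T M A k) {w z t x : ℤ} (w0 : 0 ≤ w)
    (w1 : w < M k) (z0 : 0 ≤ z) (z1 : z < M k) (t0 : 0 ≤ t) (t1 : t < M j) (x0 : 0 ≤ x)
    (x1 : x < M j) (h : T (-t) (-x) (T w z a) ∈ A j) :
    8 ≤ t - w ∧ t - w + M k ≤ M j - 8 ∧ 8 ≤ x - z ∧ x - z + M k ≤ M j - 8 := by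
  have e : T (-t) (-x) (T w z a) = T (-(t - w)) (-(x - z)) a := hT.comp (by ring) (by ring)
  rw [e] at h
  rcases ha.2 j hkj with ⟨t', x', h1, h2, h3, h4, h5⟩ | h1
  · have := sepA hT hs h h5 (abs_lt.2 ⟨by omega, by omega⟩) (abs_lt.2 ⟨by omega, by omega⟩)
    omega
  · exact absurd h (h1 _ _ (by omega) (by omega) (by omega) (by omega))

theorem mono_r (hrM : ∀ k, r k ≤ M k) (hMr : ∀ k, M k + 10 ≤ r (k + 1)) {k j : ℕ} (h : k < j) :
    M k + 10 ≤ r j := by
  induction h with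
  | refl => exact hMr k
  | step _ ih => exact (ih.trans (hrM _)).trans ((Nat.le_add_right _ _).trans (hMr _))

theorem exists_inn (hT : FAct T) (hr0 : 10 ≤ r 0) (hrM : ∀ k, r k ≤ M k)
    (hMr : ∀ k, M k + 10 ≤ r (k + 1)) {y : X} (hy : y ∈ G0 T M A r) (k0 : ℕ) :
    ∃ k t x, Inn T M A k0 k t x y := by
  classical
  obtain ⟨K, hK⟩ := hy
  have hex : ∃ k, k0 ≤ k ∧ ∃ t x : ℤ, Ran M k t x ∧ T (-t) (-x) y ∈ Kept T M A k := by
    refine ⟨max K k0, le_max_right _ _, ?_⟩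
    set k := max K k0 with hk
    have hKk : K ≤ k := le_max_left _ _
    obtain ⟨t, x, h1, h2, h3, h4, h5⟩ := hK k hKk
    have hr : 10 ≤ r k := by
      rcases Nat.eq_zero_or_pos k with h | h
      · rw [h]; exact hr0
      · have := mono_r hrM hMr h
        omega
    refine ⟨t, x, ⟨by omega, by omega, by omega, by omega⟩, h5, fun j hj => Or.inl ?_⟩
    obtain ⟨t', x', g1, g2, g3, g4, g5⟩ := hK j (by omega)
    have hm := mono_r hrM hMr hj
    refine ⟨t' - t, x' - x, by omega, by omega, by omega, by omega, ?_⟩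
    rwa [hT.comp (u := -t') (v := -x') (by ring) (by ring)]
  obtain ⟨h1, t, x, h2, h3⟩ := Nat.find_spec hex
  exact ⟨Nat.find hex, t, x, h1, h2, h3, fun k' h4 h5 t' x' h6 h7 =>
    Nat.find_min hex h5 ⟨h4, t', x', h6, h7⟩⟩

/-- The block rule. -/
theorem blk_of (hT : FAct T)
    (hs : ∀ k y s z, |s| < (M k : ℤ) → |z| < (M k : ℤ) → y ∈ A k → T s z y ∈ A k → s = 0 ∧ z = 0)
    (hr0 : 10 ≤ r 0) (hrM : ∀ k, r k ≤ M k) (hMr : ∀ k, M k + 10 ≤ r (k + 1)) {y : X}
    (hy : y ∈ GG T M A r) {g : X → ZMod 3} (hg : ∀ t x i, Pos T M A i (T t x y) →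
      g (T t x y) = valOf M i) : Blk (fun t' x' => g (T t' x' y)) 0 0 := by
  classical
  have hex : ∃ k, ∃ e1 e2 : ℤ, (0 ≤ e1 ∧ e1 ≤ 1) ∧ (0 ≤ e2 ∧ e2 ≤ 1) ∧ ∃ t x : ℤ, Ran M k t x ∧
      T (-t) (-x) (T e1 e2 y) ∈ Kept T M A k := by
    have h0 : y ∈ G0 T M A r := by
      have := hy 0 0
      rwa [hT.zero] at this
    obtain ⟨k, t, x, h1, h2, h3, -⟩ := exists_inn hT hr0 hrM hMr h0 0
    exact ⟨k, 0, 0, ⟨le_rfl, by norm_num⟩, ⟨le_rfl, by norm_num⟩, t, x, h2, by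
      rw [hT.zero]; exact h3⟩
  obtain ⟨e1, e2, he1, he2, t0, x0, hran, hkept⟩ := Nat.find_spec hex
  have hmin : ∀ k', k' < Nat.find hex → ∀ e1 e2 : ℤ, 0 ≤ e1 → e1 ≤ 1 → 0 ≤ e2 → e2 ≤ 1 →
      ∀ t x : ℤ, Ran M k' t x → T (-t) (-x) (T e1 e2 y) ∉ Kept T M A k' :=
    fun k' hk' e1 e2 h1 h2 h3 h4 t x h5 h6 =>
      Nat.find_min hex hk' ⟨e1, e2, ⟨h1, h2⟩, ⟨h3, h4⟩, t, x, h5, h6⟩
  generalize Nat.find hex = k at hran hkept hmin
  obtain ⟨t, ht⟩ : ∃ t, t = t0 - e1 := ⟨_, rfl⟩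
  obtain ⟨x, hx⟩ : ∃ x, x = x0 - e2 := ⟨_, rfl⟩
  have ea : T (-t0) (-x0) (T e1 e2 y) = T (-t) (-x) y := hT.comp (by omega) (by omega)
  rw [ea] at hkept
  obtain ⟨a, ha⟩ : ∃ a, a = T (-t) (-x) y := ⟨_, rfl⟩
  rw [← ha] at hkept
  obtain ⟨j, p, q, hj⟩ := exists_inn (A := A) hT hr0 hrM hMr (y := a) (by rw [ha]; exact hy _ _)
    (k + 1)
  obtain ⟨b, hb⟩ : ∃ b, b = T (-p) (-q) a := ⟨_, rfl⟩
  obtain ⟨j', p', q', hj'⟩ := exists_inn (A := A) hT hr0 hrM hMr (y := b)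
    (by rw [hb, ha, hT.comp (u := -p + -t) (v := -q + -x) rfl rfl]; exact hy _ _) (j + 1)
  obtain ⟨r1, r2, r3, r4⟩ := hran
  obtain ⟨j1, ⟨j2, j3, j4, j5⟩, j6, j7⟩ := hj
  have hdeep := nest hT hs (show k < j by omega) hkept (w := 0) (z := 0) (t := p) (x := q) le_rfl
    (by omega) le_rfl (by omega) (by omega) (by omega) (by omega) (by omega)
    (by rw [hT.zero]; exact j6.1)
  simp only [sub_zero] at hdeep
  have ty := typ_bd p q
  have ty' := typ_bd p' q'
  have claim : ∀ e1 e2 : ℤ, 0 ≤ e1 → e1 ≤ 1 → 0 ≤ e2 → e2 ≤ 1 →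
      g (T e1 e2 y) = Val M k (t + e1) (x + e2) (typ p q) := by
    intro e1 e2 h1 h2 h3 h4
    have ec : T (-(t + e1)) (-(x + e2)) (T e1 e2 y) = a := by
      rw [ha]; exact hT.comp (by ring) (by ring)
    by_cases hR : Ran M k (t + e1) (x + e2)
    · refine hg e1 e2 (k, t + e1, x + e2, j, p, q) ⟨⟨Nat.zero_le _, hR, ?_, ?_⟩, ?_⟩
      · simp only [ec]; exact hkept
      · intro k' _ hk' t' x' h5
        exact hmin k' hk' e1 e2 h1 h2 h3 h4 t' x' h5
      · simp only [ec]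
        exact ⟨j1, ⟨j2, j3, j4, j5⟩, j6, j7⟩
    · have eb : T (-(p + t + e1)) (-(q + x + e2)) (T e1 e2 y) = b := by
        rw [hb, ha, hT.comp (u := -p + -t) (v := -q + -x) rfl rfl]
        exact hT.comp (by ring) (by ring)
      have hpos : Pos T M A (j, p + t + e1, q + x + e2, j', p', q') (T e1 e2 y) := by
        have hRj : Ran M j (p + t + e1) (q + x + e2) :=
          ⟨by omega, by omega, by omega, by omega⟩
        refine ⟨⟨Nat.zero_le _, hRj, ?_, ?_⟩, ?_⟩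
        · simp only [eb]; rw [hb]; exact j6
        · intro k' _ hk' t' x' h5 h6
          simp only at hk' h6
          rcases lt_trichotomy k' k with hlt | heq | hgt
          · exact hmin k' hlt e1 e2 h1 h2 h3 h4 t' x' h5 h6
          · subst heq
            obtain ⟨q1, q2, q3, q4⟩ := h5
            have h7 := sepA hT hs h6.1 (t' := t + e1) (x' := x + e2) (by rw [ec]; exact hkept.1)
              (abs_lt.2 ⟨by omega, by omega⟩) (abs_lt.2 ⟨by omega, by omega⟩)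
            apply hR
            rw [← h7.1, ← h7.2]
            exact ⟨q1, q2, q3, q4⟩
          · obtain ⟨q1, q2, q3, q4⟩ := h5
            have e5 : T (t + e1) (x + e2) a = T e1 e2 y := by
              rw [ha]; exact hT.comp (by ring) (by ring)
            have h7 := nest hT hs hgt hkept (w := t + e1) (z := x + e2) (t := t') (x := x')
              (by omega) (by omega) (by omega) (by omega) (by omega) (by omega) (by omega)
              (by omega) (by rw [e5]; exact h6.1)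
            refine j7 k' (by omega) hk' (t' - (t + e1)) (x' - (x + e2))
              ⟨by omega, by omega, by omega, by omega⟩ ?_
            have e6 : T (-(t' - (t + e1))) (-(x' - (x + e2))) a = T (-t') (-x') (T e1 e2 y) := by
              rw [ha, hT.comp (u := -(t' - e1)) (v := -(x' - e2)) (by ring) (by ring)]
              exact (hT.comp (by ring) (by ring)).symm
            rw [e6]
            exact h6
        · simp only [eb]; exact hj'
      rw [hg e1 e2 _ hpos]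
      unfold valOf Val
      simp only
      have d1 : min (max (Rr M j (p + t + e1) (q + x + e2)) 0) (typ p' q') = typ p' q' := by
        unfold Rr; omega
      have d2 : min (max (Rr M k (t + e1) (x + e2)) 0) (typ p q) = 0 := by
        have : Rr M k (t + e1) (x + e2) ≤ 0 := by
          unfold Ran at hR
          unfold Rr
          omega
        omega
      rw [d1, d2]
      push_cast
      rw [typ_cast p q]
      ring
  have c00 := claim 0 0 le_rfl (by norm_num) le_rfl (by norm_num)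
  have c10 := claim 1 0 (by norm_num) le_rfl le_rfl (by norm_num)
  have c01 := claim 0 1 le_rfl (by norm_num) (by norm_num) le_rfl
  have c11 := claim 1 1 (by norm_num) le_rfl (by norm_num) le_rfl
  obtain ⟨m, u1, u2, u3, u4, b1, b2, b3, b4, b5, b6, b7, b8, b9⟩ :=
    four (f0 := min (t + 0 - 3) (M k - 4 - (t + 0))) (f1 := min (t + 1 - 3) (M k - 4 - (t + 1)))
      (g0 := min (x + 0 - 3) (M k - 4 - (x + 0))) (g1 := min (x + 1 - 3) (M k - 4 - (x + 1)))
      (typ p q) (by omega) (by omega) (by omega) (by omega)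
  refine ⟨((t + x - typ p q + m : ℤ) : ZMod 3), u1, u2, u3, u4, b1, b2, b3, b4, b5, ?_, ?_, ?_, ?_⟩
  · change g (T 0 0 y) = _
    rw [c00]
    unfold Val Rr
    rw [b6]
    push_cast; ring
  · simp only [zero_add]
    rw [c10]
    unfold Val Rr
    rw [b7]
    push_cast; ring
  · simp only [zero_add]
    rw [c01]
    unfold Val Rr
    rw [b8]
    push_cast; ring
  · simp only [zero_add]
    rw [c11]
    unfold Val Rr
    rw [b9]
    push_cast; ring

end

end Pool.Agent.N621.LC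

end
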